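import Mathlib

/-!
# Neighbourhoods in the shadow of a triple system without `k` vertices spanning `k - 3` edges
-/

set_option autoImplicit false

open Finset

namespace Pool.Agent.Helper46.BES

variable {V : Type*} [DecidableEq V]

/-- Every `k` vertices span fewer than `k - 3` edges. -/
def Free (H : Finset (Finset V)) (k : ℕ) : Prop :=
  ∀ K : Finset V, #K = k → #{e ∈ H | e ⊆ K} < k - 3

/-- The vertices which share an edge with `v`. -/
def nbr [Fintype V] (H : Finset (Finset V)) (v : V) : Finset V :=
  {w | w ≠ v ∧ ∃ e ∈ H, v ∈ e ∧ w ∈ e}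

/-- The number of the edges of the link graph of `a` inside `X`. -/
def ea (H : Finset (Finset V)) (a : V) (X : Finset V) : ℕ := #{e ∈ H | a ∈ e ∧ e ⊆ insert a X}

/-- The graph formed by the links of `a` and `b`. -/
def gr (H : Finset (Finset V)) (a b : V) : SimpleGraph V where
  Adj x y := x ≠ y ∧ (x ≠ a ∧ x ≠ b) ∧ (y ≠ a ∧ y ≠ b) ∧
    (({a, x, y} : Finset V) ∈ H ∨ ({b, x, y} : Finset V) ∈ H)
  symm := ⟨fun x y h => ⟨h.1.symm, h.2.2.1, h.2.1, by
    rcases h.2.2.2 with h | h
    · left
      rwa [show ({a, y, x} : Finset V) = {a, x, y} by ext z; simp; tauto]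
    · right
      rwa [show ({b, y, x} : Finset V) = {b, x, y} by ext z; simp; tauto]⟩⟩
  loopless := ⟨fun x h => h.1 rfl⟩

lemma not_free_of_le [Fintype V] {H : Finset (Finset V)} {k : ℕ} (hF : Free H k)
    (hk : k ≤ Fintype.card V) (X : Finset V) (hX : #X ≤ k) : #{e ∈ H | e ⊆ X} < k - 3 := by
  obtain ⟨K, hK, hc⟩ := exists_superset_card_eq hX (by simpa using hk)
  refine lt_of_le_of_lt (card_le_card ?_) (hF K hc)
  intro e he
  rw [mem_filter] at he ⊢
  exact ⟨he.1, he.2.trans hK⟩

lemma ea_mono {H : Finset (Finset V)} {a : V} {X Y : Finset V} (h : X ⊆ Y) :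
    ea H a X ≤ ea H a Y := by
  apply card_le_card
  intro e he
  rw [mem_filter] at he ⊢
  exact ⟨he.1, he.2.1, he.2.2.trans (insert_subset_insert _ h)⟩

lemma ea_insert {H : Finset (Finset V)} {a x w : V} {X : Finset V} (hx : x ∈ X) (hw : w ∉ X)
    (hwa : w ≠ a) (he : ({a, x, w} : Finset V) ∈ H) : ea H a X + 1 ≤ ea H a (insert w X) := by
  apply Nat.succ_le_of_lt
  apply card_lt_card
  rw [ssubset_iff_of_subset]
  · refine ⟨{a, x, w}, ?_, ?_⟩
    · rw [mem_filter]
      refine ⟨he, by simp, ?_⟩
      intro z hz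
      simp only [mem_insert, mem_singleton] at hz ⊢
      rcases hz with rfl | rfl | rfl
      · exact Or.inl rfl
      · exact Or.inr (Or.inr hx)
      · exact Or.inr (Or.inl rfl)
    · rw [mem_filter]
      rintro ⟨-, -, h⟩
      have : w ∈ insert a X := h (by simp)
      rw [mem_insert] at this
      rcases this with h | h
      · exact hwa h
      · exact hw h
  · intro e he
    rw [mem_filter] at he ⊢
    exact ⟨he.1, he.2.1, he.2.2.trans (insert_subset_insert _ (subset_insert _ _))⟩

lemma ea_union {H : Finset (Finset V)} (h3 : ∀ e ∈ H, #e = 3) {a : V} {X Y : Finset V}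
    (hXY : Disjoint X Y) : ea H a X + ea H a Y ≤ ea H a (X ∪ Y) := by
  unfold ea
  rw [← card_union_of_disjoint]
  · apply card_le_card
    intro e he
    rw [mem_union, mem_filter, mem_filter] at he
    rw [mem_filter]
    rcases he with he | he
    · exact ⟨he.1, he.2.1, he.2.2.trans (insert_subset_insert _ subset_union_left)⟩
    · exact ⟨he.1, he.2.1, he.2.2.trans (insert_subset_insert _ subset_union_right)⟩
  · rw [disjoint_left]
    intro e he he'
    rw [mem_filter] at he he'
    have hc := h3 e he.1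
    have : e ⊆ {a} := by
      intro z hz
      have h1 := he.2.2 hz
      have h2 := he'.2.2 hz
      rw [mem_insert] at h1 h2
      rw [mem_singleton]
      rcases h1 with h1 | h1
      · exact h1
      · rcases h2 with h2 | h2
        · exact h2
        · exact absurd h2 (disjoint_left.1 hXY h1)
    have := card_le_card this
    rw [card_singleton] at this
    omega

lemma ea_add {H : Finset (Finset V)} {a b : V} {X : Finset V} (hab : a ≠ b) (hbX : b ∉ X) :
    ea H a X + ea H b X ≤ #{e ∈ H | e ⊆ insert a (insert b X)} := by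
  unfold ea
  rw [← card_union_of_disjoint]
  · apply card_le_card
    intro e he
    rw [mem_union, mem_filter, mem_filter] at he
    rw [mem_filter]
    rcases he with he | he
    · exact ⟨he.1, he.2.2.trans (insert_subset_insert _ (subset_insert _ _))⟩
    · exact ⟨he.1, he.2.2.trans (subset_insert _ _)⟩
  · rw [disjoint_left]
    intro e he he'
    rw [mem_filter] at he he'
    have := he.2.2 he'.2.1
    rw [mem_insert] at this
    rcases this with h | h
    · exact hab h.symm
    · exact hbX h

/-- The link of `a` covers `X`: then it has at least `#X / 2` edges inside `X`. -/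
lemma ea_cover {H : Finset (Finset V)} (h3 : ∀ e ∈ H, #e = 3) {a : V} {X : Finset V} (haX : a ∉ X)
    (h : ∀ x ∈ X, ∃ e ∈ H, a ∈ e ∧ x ∈ e ∧ e ⊆ insert a X) : #X ≤ 2 * ea H a X := by
  have h1 : X ⊆ ({e ∈ H | a ∈ e ∧ e ⊆ insert a X}).biUnion (fun e => e.erase a) := by
    intro x hx
    obtain ⟨e, he, hae, hxe, hs⟩ := h x hx
    rw [mem_biUnion]
    refine ⟨e, ?_, ?_⟩
    · rw [mem_filter]
      exact ⟨he, hae, hs⟩
    · rw [mem_erase]
      exact ⟨fun h => haX (h ▸ hx), hxe⟩
  calc #X ≤ _ := card_le_card h1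
    _ ≤ ∑ e ∈ ({e ∈ H | a ∈ e ∧ e ⊆ insert a X}), #(e.erase a) := card_biUnion_le
    _ ≤ ∑ e ∈ ({e ∈ H | a ∈ e ∧ e ⊆ insert a X}), 2 := by
        apply sum_le_sum
        intro e he
        rw [mem_filter] at he
        rw [card_erase_of_mem he.2.1, h3 e he.1]
    _ = 2 * ea H a X := by
        rw [sum_const, smul_eq_mul, mul_comm]
        rfl

section

variable [Fintype V] {H : Finset (Finset V)} {k : ℕ} {a b : V}

/-- The component of `y` in the union of the links of `a` and `b`. -/
noncomputable def comp (H : Finset (Finset V)) (a b y : V) : Finset V :=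
  open Classical in {z | (gr H a b).Reachable y z}

lemma mem_comp {y z : V} : z ∈ comp H a b y ↔ (gr H a b).Reachable y z := by
  simp [comp]

lemma self_mem_comp (y : V) : y ∈ comp H a b y := mem_comp.2 (SimpleGraph.Reachable.refl _)

lemma comp_eq {y z : V} (h : z ∈ comp H a b y) : comp H a b z = comp H a b y := by
  rw [mem_comp] at h
  ext w
  rw [mem_comp, mem_comp]
  exact ⟨fun h' => h.trans h', fun h' => h.symm.trans h'⟩

/-- An edge which leaves `X` inside the component. -/
lemma exists_exit {y z : V} {X : Finset V} (hy : y ∈ X) (hz : z ∉ X) (hzy : z ∈ comp H a b y) :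
    ∃ x ∈ X, ∃ w ∉ X, w ∈ comp H a b y ∧ (gr H a b).Adj x w := by
  by_contra hno
  push Not at hno
  apply hz
  rw [mem_comp, SimpleGraph.reachable_iff_reflTransGen] at hzy
  clear hz
  have : z ∈ X ∧ z ∈ comp H a b y := by
    induction hzy with
    | refl => exact ⟨hy, self_mem_comp y⟩
    | tail h1 h2 ih =>
      rename_i u w
      have hw : w ∈ comp H a b y := by
        rw [mem_comp]
        exact (mem_comp.1 ih.2).trans (SimpleGraph.Adj.reachable h2)
      refine ⟨?_, hw⟩
      by_contra hwX
      exact hno u ih.1 w hwX hw h2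
  exact this.1

lemma comp_ne {y z : V} (hya : y ≠ a) (hyb : y ≠ b) (hz : z ∈ comp H a b y) : z ≠ a ∧ z ≠ b := by
  rw [mem_comp, SimpleGraph.reachable_iff_reflTransGen] at hz
  induction hz with
  | refl => exact ⟨hya, hyb⟩
  | tail h1 h2 ih => exact h2.2.2.1

/-- One step of growth. -/
lemma ee_insert {x w : V} {X : Finset V} (hx : x ∈ X) (hw : w ∉ X)
    (h : (gr H a b).Adj x w) : ea H a X + ea H b X + 1 ≤ ea H a (insert w X) + ea H b (insert w X) := by
  rcases h.2.2.2 with he | he
  · have := ea_insert hx hw h.2.2.1.1 he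
    have h2 : ea H b X ≤ ea H b (insert w X) := ea_mono (subset_insert _ _)
    omega
  · have := ea_insert hx hw h.2.2.1.2 he
    have h2 : ea H a X ≤ ea H a (insert w X) := ea_mono (subset_insert _ _)
    omega

/-- The growth lemma. -/
lemma growth (hF : Free H k) (hk : k ≤ Fintype.card V) (hab : a ≠ b)
    {X₀ : Finset V} (ha : a ∉ X₀) (hb : b ∉ X₀) (h₀ : #X₀ + 3 ≤ k)
    (he : #X₀ ≤ ea H a X₀ + ea H b X₀) {y : V} (hy : y ∉ X₀) (hya : y ≠ a) (hyb : y ≠ b) :
    #(X₀ ∪ comp H a b y) + 3 ≤ k := by
  classical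
  set F : Finset (Finset V) := univ.filter fun X => X₀ ⊆ X ∧ y ∈ X ∧ X ⊆ X₀ ∪ comp H a b y ∧
    #X + 2 ≤ k ∧ #X ≤ ea H a X + ea H b X + 1 with hFdef
  have hne : F.Nonempty := by
    refine ⟨insert y X₀, ?_⟩
    rw [hFdef, mem_filter]
    refine ⟨mem_univ _, subset_insert _ _, mem_insert_self _ _, ?_, ?_, ?_⟩
    · intro z hz
      rw [mem_insert] at hz
      rw [mem_union]
      rcases hz with rfl | hz
      · exact Or.inr (self_mem_comp _)
      · exact Or.inl hz
    · rw [card_insert_of_notMem hy]
      omega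
    · rw [card_insert_of_notMem hy]
      have h1 : ea H a X₀ ≤ ea H a (insert y X₀) := ea_mono (subset_insert _ _)
      have h2 : ea H b X₀ ≤ ea H b (insert y X₀) := ea_mono (subset_insert _ _)
      omega
  obtain ⟨X, hX, hmax⟩ := exists_max_image F card hne
  rw [hFdef, mem_filter] at hX
  obtain ⟨-, hX0, hyX, hXs, hXc, hXe⟩ := hX
  have haX : a ∉ X := by
    intro h
    rcases mem_union.1 (hXs h) with h | h
    · exact ha h
    · exact (comp_ne hya hyb h).1 rfl
  have hbX : b ∉ X := by
    intro h
    rcases mem_union.1 (hXs h) with h | h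
    · exact hb h
    · exact (comp_ne hya hyb h).2 rfl
  have hlt : #X + 3 ≤ k := by
    by_contra hcon
    have hXk : #X + 2 = k := by omega
    have h1 := ea_add (H := H) hab hbX
    have hc : #(insert a (insert b X)) = k := by
      rw [card_insert_of_notMem, card_insert_of_notMem hbX]
      · omega
      · rw [mem_insert]
        rintro (h | h)
        · exact hab h
        · exact haX h
    have h2 := hF _ hc
    omega
  by_cases hXeq : X = X₀ ∪ comp H a b y
  · rw [← hXeq]
    exact hlt
  · exfalso
    obtain ⟨z, hz, hzX⟩ := exists_of_ssubset (hXs.ssubset_of_ne hXeq)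
    have hzc : z ∈ comp H a b y := by
      rcases mem_union.1 hz with h | h
      · exact absurd (hX0 h) hzX
      · exact h
    obtain ⟨x, hx, w, hw, hwc, hadj⟩ := exists_exit hyX hzX hzc
    have h1 := hmax (insert w X) (by
      rw [hFdef, mem_filter]
      refine ⟨mem_univ _, hX0.trans (subset_insert _ _), mem_insert_of_mem hyX, ?_, ?_, ?_⟩
      · intro v hv
        rw [mem_insert] at hv
        rcases hv with rfl | hv
        · exact mem_union_right _ hwc
        · exact hXs hv
      · rw [card_insert_of_notMem hw]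
        omega
      · rw [card_insert_of_notMem hw]
        have := ee_insert hx hw hadj
        omega)
    rw [card_insert_of_notMem hw] at h1
    omega

/-- The bad vertices. -/
def bad (H : Finset (Finset V)) (a b : V) : Finset V :=
  {x | x ∈ nbr H a ∪ nbr H b ∧ (x ∉ nbr H a ∨ x ∉ nbr H b ∨ ({a, b, x} : Finset V) ∈ H)}

lemma mem_nbr {v w : V} : w ∈ nbr H v ↔ w ≠ v ∧ ∃ e ∈ H, v ∈ e ∧ w ∈ e := by
  simp [nbr]

lemma eq_triple (h3 : ∀ e ∈ H, #e = 3) {e : Finset V} (he : e ∈ H) {x : V} (hax : x ≠ a)
    (ha : a ∈ e) (hx : x ∈ e) : ∃ z, z ≠ a ∧ z ≠ x ∧ e = {a, x, z} := by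
  have hc := h3 e he
  have h1 : #((e.erase a).erase x) = 1 := by
    rw [card_erase_of_mem (mem_erase.2 ⟨hax, hx⟩), card_erase_of_mem ha, hc]
  obtain ⟨z, hz⟩ := card_eq_one.1 h1
  have hz' : z ∈ (e.erase a).erase x := by rw [hz]; simp
  rw [mem_erase, mem_erase] at hz'
  refine ⟨z, hz'.2.1, hz'.1, ?_⟩
  ext w
  simp only [mem_insert, mem_singleton]
  constructor
  · intro hw
    by_cases h1 : w = a
    · exact Or.inl h1
    · by_cases h2 : w = x
      · exact Or.inr (Or.inl h2)
      · right; right
        have : w ∈ (e.erase a).erase x := mem_erase.2 ⟨h2, mem_erase.2 ⟨h1, hw⟩⟩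
        rw [hz] at this
        simpa using this
  · rintro (rfl | rfl | rfl)
    · exact ha
    · exact hx
    · exact hz'.2.2

/-- A component of good vertices is covered by both links. -/
lemma comp_cover (h3 : ∀ e ∈ H, #e = 3) (hab : a ≠ b) {y : V} (hya : y ≠ a) (hyb : y ≠ b)
    (hgood : ∀ x ∈ comp H a b y, x ∈ nbr H a ∧ x ∈ nbr H b ∧ ({a, b, x} : Finset V) ∉ H) :
    #(comp H a b y) ≤ ea H a (comp H a b y) + ea H b (comp H a b y) := by
  have key : ∀ c d : V, (c = a ∧ d = b) ∨ (c = b ∧ d = a) →
      #(comp H a b y) ≤ 2 * ea H c (comp H a b y) := by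
    intro c d hcd
    have hc : c ∉ comp H a b y := by
      intro h
      have := comp_ne hya hyb h
      rcases hcd with ⟨rfl, rfl⟩ | ⟨rfl, rfl⟩
      · exact this.1 rfl
      · exact this.2 rfl
    apply ea_cover h3 hc
    intro x hx
    have hxg := hgood x hx
    have hxab := comp_ne hya hyb hx
    have hxn : x ∈ nbr H c := by
      rcases hcd with ⟨rfl, rfl⟩ | ⟨rfl, rfl⟩
      · exact hxg.1
      · exact hxg.2.1
    obtain ⟨hxc, e, he, hce, hxe⟩ := mem_nbr.1 hxn
    obtain ⟨z, hzc, hzx, rfl⟩ := eq_triple h3 he hxc hce hxe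
    refine ⟨_, he, by simp, by simp, ?_⟩
    have hzd : z ≠ d := by
      rintro rfl
      apply hxg.2.2
      rcases hcd with ⟨rfl, rfl⟩ | ⟨rfl, rfl⟩
      · rwa [show ({c, z, x} : Finset V) = {c, x, z} by ext w; simp; tauto]
      · rwa [show ({z, c, x} : Finset V) = {c, x, z} by ext w; simp; tauto]
    have hzcomp : z ∈ comp H a b y := by
      rw [mem_comp] at hx ⊢
      refine hx.trans (SimpleGraph.Adj.reachable ?_)
      refine ⟨hzx.symm, hxab, ?_, ?_⟩
      · rcases hcd with ⟨rfl, rfl⟩ | ⟨rfl, rfl⟩
        · exact ⟨hzc, hzd⟩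
        · exact ⟨hzd, hzc⟩
      · rcases hcd with ⟨rfl, rfl⟩ | ⟨rfl, rfl⟩
        · exact Or.inl he
        · exact Or.inr he
    intro w hw
    simp only [mem_insert, mem_singleton] at hw
    rw [mem_insert]
    rcases hw with rfl | rfl | rfl
    · exact Or.inl rfl
    · exact Or.inr hx
    · exact Or.inr hzcomp
  have h1 := key a b (Or.inl ⟨rfl, rfl⟩)
  have h2 := key b a (Or.inr ⟨rfl, rfl⟩)
  omega

/-- **The structural lemma.** -/
theorem card_nbr_le (h3 : ∀ e ∈ H, #e = 3) (hF : Free H k) (hk : k ≤ Fintype.card V)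
    (hab : a ≠ b) :
    #(((nbr H a ∪ nbr H b).erase a).erase b) ≤ (k - 3) * (#(bad H a b) + 1) := by
  classical
  have hk3 : 3 < k := by
    have := not_free_of_le hF hk ∅ (by simp)
    omega
  set P : Finset (Finset V) := univ.filter fun X => a ∉ X ∧ b ∉ X ∧ #X + 3 ≤ k ∧
    #X ≤ ea H a X + ea H b X with hP
  have hne : P.Nonempty := ⟨∅, by
    rw [hP, mem_filter]
    refine ⟨mem_univ _, by simp, by simp, ?_, by simp⟩
    simp only [card_empty]
    omega⟩
  obtain ⟨X₀, hX0, hmax⟩ := exists_max_image P card hne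
  rw [hP, mem_filter] at hX0
  obtain ⟨-, ha, hb, hc, he⟩ := hX0
  -- `X₀` is closed
  have hclosed : ∀ x ∈ X₀, ∀ w, (gr H a b).Adj x w → w ∈ X₀ := by
    intro x hx w hadj
    by_contra hw
    have hg := growth hF hk hab ha hb hc he hw hadj.2.2.1.1 hadj.2.2.1.2
    have hsub : insert w X₀ ⊆ X₀ ∪ comp H a b w := by
      intro z hz
      rw [mem_insert] at hz
      rcases hz with rfl | hz
      · exact mem_union_right _ (self_mem_comp _)
      · exact mem_union_left _ hz
    have h1 := card_le_card hsub
    have h2 := hmax (insert w X₀) (by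
      rw [hP, mem_filter]
      refine ⟨mem_univ _, ?_, ?_, by omega, ?_⟩
      · rw [mem_insert]
        rintro (h | h)
        · exact hadj.2.2.1.1 h.symm
        · exact ha h
      · rw [mem_insert]
        rintro (h | h)
        · exact hadj.2.2.1.2 h.symm
        · exact hb h
      · rw [card_insert_of_notMem hw]
        have := ee_insert hx hw hadj
        omega)
    rw [card_insert_of_notMem hw] at h2
    omega
  have hdisj : ∀ y, y ∉ X₀ → Disjoint X₀ (comp H a b y) := by
    intro y hy
    rw [disjoint_left]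
    intro z hz hzc
    -- from `z` one reaches `y`
    have hyz : y ∈ comp H a b z := by
      rw [comp_eq hzc]
      exact self_mem_comp y
    obtain ⟨x, hx, w, hw, -, hadj⟩ := exists_exit hz hy hyz
    exact hw (hclosed x hx w hadj)
  have hcomp : ∀ y, y ≠ a → y ≠ b → #(comp H a b y) + 3 ≤ k := by
    intro y hya hyb
    have := growth hF hk hab (X₀ := ∅) (by simp) (by simp) (by simp; omega) (by simp)
      (y := y) (by simp) hya hyb
    simpa using this
  have hcov : ((nbr H a ∪ nbr H b).erase a).erase b ⊆ X₀ ∪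
      (((bad H a b).erase a).erase b).biUnion (comp H a b) := by
    intro y hy
    rw [mem_erase, mem_erase, mem_union] at hy
    obtain ⟨hyb, hya, hyN⟩ := hy
    rw [mem_union]
    by_cases hy0 : y ∈ X₀
    · exact Or.inl hy0
    right
    by_contra hno
    have hgood : ∀ x ∈ comp H a b y, x ∉ bad H a b := by
      intro x hx hxb
      apply hno
      have hne := comp_ne hya hyb hx
      rw [mem_biUnion]
      refine ⟨x, mem_erase.2 ⟨hne.2, mem_erase.2 ⟨hne.1, hxb⟩⟩, ?_⟩
      rw [comp_eq hx]
      exact self_mem_comp y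
    have hU : ∀ x ∈ comp H a b y, x ∈ nbr H a ∪ nbr H b := by
      intro x hx
      rw [mem_comp, SimpleGraph.reachable_iff_reflTransGen] at hx
      induction hx with
      | refl => exact mem_union.2 hyN
      | tail h1 h2 ih =>
        rename_i u w
        rw [mem_union]
        rcases h2.2.2.2 with he | he
        · left
          rw [mem_nbr]
          exact ⟨h2.2.2.1.1, _, he, by simp, by simp⟩
        · right
          rw [mem_nbr]
          exact ⟨h2.2.2.1.2, _, he, by simp, by simp⟩
    have hg : ∀ x ∈ comp H a b y, x ∈ nbr H a ∧ x ∈ nbr H b ∧ ({a, b, x} : Finset V) ∉ H := by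
      intro x hx
      have h1 := hgood x hx
      have h2 := hU x hx
      simp only [bad, mem_filter, mem_univ, true_and, not_and, not_or, not_not] at h1
      exact h1 h2
    have h4 := comp_cover h3 hab hya hyb hg
    have h5 := growth hF hk hab ha hb hc he hy0 hya hyb
    have h6 := hdisj y hy0
    have h7 := ea_union h3 (a := a) h6
    have h8 := ea_union h3 (a := b) h6
    have h9 : 0 < #(comp H a b y) := card_pos.2 ⟨y, self_mem_comp y⟩
    have h10 := hmax (X₀ ∪ comp H a b y) (by
      rw [hP, mem_filter]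
      refine ⟨mem_univ _, ?_, ?_, h5, ?_⟩
      · rw [mem_union]
        rintro (h | h)
        · exact ha h
        · exact (comp_ne hya hyb h).1 rfl
      · rw [mem_union]
        rintro (h | h)
        · exact hb h
        · exact (comp_ne hya hyb h).2 rfl
      · rw [card_union_of_disjoint h6]
        omega)
    rw [card_union_of_disjoint h6] at h10
    omega
  calc _ ≤ #(X₀ ∪ (((bad H a b).erase a).erase b).biUnion (comp H a b)) := card_le_card hcov
    _ ≤ #X₀ + #((((bad H a b).erase a).erase b).biUnion (comp H a b)) := card_union_le _ _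
    _ ≤ (k - 3) + #(bad H a b) * (k - 3) := by
        apply add_le_add (by omega)
        refine (card_biUnion_le_card_mul _ _ (k - 3) ?_).trans ?_
        · intro y hy
          rw [mem_erase, mem_erase] at hy
          have := hcomp y hy.2.1 hy.1
          omega
        · apply Nat.mul_le_mul_right
          exact card_le_card ((erase_subset _ _).trans (erase_subset _ _))
    _ = _ := by ring

/-- Codegrees are small. -/
lemma codeg_lt (h3 : ∀ e ∈ H, #e = 3) (hF : Free H k) (hk : k ≤ Fintype.card V) (hab : a ≠ b) :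
    #{e ∈ H | a ∈ e ∧ b ∈ e} < k - 3 := by
  have hk3 : 3 < k := by
    have := not_free_of_le hF hk ∅ (by simp)
    omega
  by_contra hcon
  push Not at hcon
  obtain ⟨F, hFs, hFc⟩ := exists_subset_card_eq hcon
  set X := insert a (insert b (F.biUnion fun e => (e.erase a).erase b)) with hX
  have h1 : #X ≤ k := by
    refine (card_insert_le _ _).trans ?_
    have h2 : #(insert b (F.biUnion fun e => (e.erase a).erase b)) ≤ (k - 3) + 1 := by
      refine (card_insert_le _ _).trans ?_
      apply Nat.add_le_add_right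
      refine (card_biUnion_le_card_mul _ _ 1 ?_).trans (by omega)
      intro e he
      have := hFs he
      rw [mem_filter] at this
      rw [card_erase_of_mem (mem_erase.2 ⟨hab.symm, this.2.2⟩), card_erase_of_mem this.2.1,
        h3 e this.1]
    omega
  have h2 := not_free_of_le hF hk X h1
  have h3' : F ⊆ {e ∈ H | e ⊆ X} := by
    intro e he
    have := hFs he
    rw [mem_filter] at this
    rw [mem_filter]
    refine ⟨this.1, ?_⟩
    intro z hz
    rw [hX, mem_insert, mem_insert, mem_biUnion]
    by_cases hza : z = a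
    · exact Or.inl hza
    by_cases hzb : z = b
    · exact Or.inr (Or.inl hzb)
    · exact Or.inr (Or.inr ⟨e, he, mem_erase.2 ⟨hzb, mem_erase.2 ⟨hza, hz⟩⟩⟩)
  have := card_le_card h3'
  omega

/-- **Neighbourhoods in the shadow are far apart.** -/
theorem card_union_nbr_le (h3 : ∀ e ∈ H, #e = 3) (hF : Free H k) (hk : k ≤ Fintype.card V)
    (hab : a ≠ b) : #(nbr H a ∪ nbr H b) ≤ k * (#(symmDiff (nbr H a) (nbr H b)) + k) := by
  classical
  have hk3 : 3 < k := by
    have := not_free_of_le hF hk ∅ (by simp)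
    omega
  have h1 := card_nbr_le h3 hF hk hab
  have h2 : #(nbr H a ∪ nbr H b) ≤ #(((nbr H a ∪ nbr H b).erase a).erase b) + 2 := by
    have e1 := pred_card_le_card_erase (s := nbr H a ∪ nbr H b) (a := a)
    have e2 := pred_card_le_card_erase (s := (nbr H a ∪ nbr H b).erase a) (a := b)
    omega
  have h4 : #(bad H a b) ≤ #(symmDiff (nbr H a) (nbr H b)) + (k - 4) := by
    have hs : bad H a b ⊆ symmDiff (nbr H a) (nbr H b) ∪
        (({e ∈ H | a ∈ e ∧ b ∈ e}).biUnion fun e => (e.erase a).erase b) := by
      intro x hx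
      simp only [bad, mem_filter, mem_univ, true_and, mem_union] at hx
      rw [mem_union, mem_symmDiff, mem_biUnion]
      obtain ⟨h1, h2 | h2 | h2⟩ := hx
      · left; right
        exact ⟨h1.resolve_left h2, h2⟩
      · left; left
        exact ⟨h1.resolve_right h2, h2⟩
      · by_cases hxa : x ∈ nbr H a
        · by_cases hxb : x ∈ nbr H b
          · right
            refine ⟨{a, b, x}, ?_, ?_⟩
            · rw [mem_filter]
              exact ⟨h2, by simp, by simp⟩
            · rw [mem_erase, mem_erase]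
              exact ⟨(mem_nbr.1 hxb).1, (mem_nbr.1 hxa).1, by simp⟩
          · left; left; exact ⟨hxa, hxb⟩
        · left; right
          exact ⟨h1.resolve_left hxa, hxa⟩
    refine (card_le_card hs).trans ((card_union_le _ _).trans ?_)
    apply Nat.add_le_add_left
    refine (card_biUnion_le_card_mul _ _ 1 ?_).trans ?_
    · intro e he
      rw [mem_filter] at he
      rw [card_erase_of_mem (mem_erase.2 ⟨hab.symm, he.2.2⟩), card_erase_of_mem he.2.1,
        h3 e he.1]
    · have := codeg_lt h3 hF hk hab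
      omega
  obtain ⟨j, rfl⟩ : ∃ j, k = j + 4 := ⟨k - 4, by omega⟩
  set D := #(symmDiff (nbr H a) (nbr H b))
  have h5 : #(nbr H a ∪ nbr H b) ≤ (j + 1) * (D + j + 1) + 2 := by
    calc _ ≤ _ := h2
      _ ≤ (j + 4 - 3) * (#(bad H a b) + 1) + 2 := Nat.add_le_add_right h1 _
      _ ≤ (j + 1) * (D + j + 1) + 2 := by
        apply Nat.add_le_add_right
        have e : j + 4 - 3 = j + 1 := by omega
        rw [e]
        apply Nat.mul_le_mul_left
        omega
  nlinarith

end

end Pool.Agent.Helper46.BES
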