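import Pool.Agent.Helper46.BES.VC

/-!
# Tripartite triple systems without 7 vertices spanning 4 edges: one tame shadow
-/

set_option autoImplicit false

open Finset

namespace Pool.Agent.Helper46.BES

variable {V : Type} [DecidableEq V] [Fintype V] {H : Finset (Finset V)}

/-- The vertices of the part `i` which share an edge with `v`. -/
def nbp (H : Finset (Finset V)) (c : V → Fin 3) (i : Fin 3) (v : V) : Finset V :=
  {w | c w = i ∧ ∃ e ∈ H, v ∈ e ∧ w ∈ e}

lemma mem_nbp {c : V → Fin 3} {i : Fin 3} {v w : V} :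
    w ∈ nbp H c i v ↔ c w = i ∧ ∃ e ∈ H, v ∈ e ∧ w ∈ e := by simp [nbp]

/-- Tripartite. -/
def Tripart (H : Finset (Finset V)) (c : V → Fin 3) : Prop :=
  ∀ e ∈ H, ∃ x y z, c x = 0 ∧ c y = 1 ∧ c z = 2 ∧ e = {x, y, z}

lemma Tripart.card {c : V → Fin 3} (h : Tripart H c) : ∀ e ∈ H, #e = 3 := by
  intro e he
  obtain ⟨x, y, z, hx, hy, hz, rfl⟩ := h e he
  rw [card_eq_three]
  refine ⟨x, y, z, ?_, ?_, ?_, rfl⟩
  · rintro rfl; rw [hx] at hy; exact absurd hy (by decide)
  · rintro rfl; rw [hx] at hz; exact absurd hz (by decide)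
  · rintro rfl; rw [hy] at hz; exact absurd hz (by decide)

/-- An edge through `a` (part 0) and `z` (part 2). -/
lemma exists_b {c : V → Fin 3} (h : Tripart H c) {a z : V} (ha : c a = 0)
    (hz : z ∈ nbp H c 2 a) : ∃ b, c b = 1 ∧ ({a, b, z} : Finset V) ∈ H := by
  obtain ⟨hcz, e, he, hae, hze⟩ := mem_nbp.1 hz
  obtain ⟨x, y, w, hx, hy, hw, rfl⟩ := h e he
  simp only [mem_insert, mem_singleton] at hae hze
  have h1 : a = x := by
    rcases hae with h | h | h
    · exact h
    · rw [h, hy] at ha; exact absurd ha (by decide)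
    · rw [h, hw] at ha; exact absurd ha (by decide)
  have h2 : z = w := by
    rcases hze with h | h | h
    · rw [h, hx] at hcz; exact absurd hcz (by decide)
    · rw [h, hy] at hcz; exact absurd hcz (by decide)
    · exact h
  subst h1
  subst h2
  exact ⟨y, hy, he⟩

/-- An edge through `a` (part 0) and `b` (part 1). -/
lemma exists_z {c : V → Fin 3} (h : Tripart H c) {a b : V} (ha : c a = 0)
    (hb : b ∈ nbp H c 1 a) : ∃ z, c z = 2 ∧ ({a, b, z} : Finset V) ∈ H := by
  obtain ⟨hcb, e, he, hae, hbe⟩ := mem_nbp.1 hb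
  obtain ⟨x, y, w, hx, hy, hw, rfl⟩ := h e he
  simp only [mem_insert, mem_singleton] at hae hbe
  have h1 : a = x := by
    rcases hae with h | h | h
    · exact h
    · rw [h, hy] at ha; exact absurd ha (by decide)
    · rw [h, hw] at ha; exact absurd ha (by decide)
  have h2 : b = y := by
    rcases hbe with h | h | h
    · rw [h, hx] at hcb; exact absurd hcb (by decide)
    · exact h
    · rw [h, hw] at hcb; exact absurd hcb (by decide)
  subst h1
  subst h2
  exact ⟨w, hw, he⟩

omit [Fintype V] in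
lemma sub3 {x y z : V} {X : Finset V} (hx : x ∈ X) (hy : y ∈ X) (hz : z ∈ X) :
    ({x, y, z} : Finset V) ⊆ X := by
  intro w hw
  simp only [mem_insert, mem_singleton] at hw
  rcases hw with rfl | rfl | rfl
  · exact hx
  · exact hy
  · exact hz

/-- Few common neighbours in part 2 if the neighbourhoods in part 1 are close. -/
theorem card_inter_le {c : V → Fin 3} (h : Tripart H c) (hF : Free H 7)
    (hk : 7 ≤ Fintype.card V) {a a' : V} (ha : c a = 0) (ha' : c a' = 0) (haa : a ≠ a') :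
    #(nbp H c 2 a ∩ nbp H c 2 a') ≤ 3 * #(symmDiff (nbp H c 1 a) (nbp H c 1 a')) + 1 := by
  classical
  have h3 := h.card
  -- the partners
  have hex : ∀ z : V, ∃ b, z ∈ nbp H c 2 a → c b = 1 ∧ ({a, b, z} : Finset V) ∈ H := by
    intro z
    by_cases hz : z ∈ nbp H c 2 a
    · obtain ⟨b, hb⟩ := exists_b h ha hz
      exact ⟨b, fun _ => hb⟩
    · exact ⟨a, fun h => absurd h hz⟩
  have hex' : ∀ z : V, ∃ b, z ∈ nbp H c 2 a' → c b = 1 ∧ ({a', b, z} : Finset V) ∈ H := by
    intro z
    by_cases hz : z ∈ nbp H c 2 a'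
    · obtain ⟨b, hb⟩ := exists_b h ha' hz
      exact ⟨b, fun _ => hb⟩
    · exact ⟨a, fun h => absurd h hz⟩
  choose β hβ using hex
  choose β' hβ' using hex'
  set I := nbp H c 2 a ∩ nbp H c 2 a' with hI
  have hIz : ∀ z ∈ I, c z = 2 := fun z hz => (mem_nbp.1 (mem_inter.1 hz).1).1
  have hmemβ : ∀ z ∈ I, β z ∈ nbp H c 1 a := by
    intro z hz
    have := hβ z (mem_inter.1 hz).1
    exact mem_nbp.2 ⟨this.1, _, this.2, by simp, by simp⟩
  have hmemβ' : ∀ z ∈ I, β' z ∈ nbp H c 1 a' := by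
    intro z hz
    have := hβ' z (mem_inter.1 hz).2
    exact mem_nbp.2 ⟨this.1, _, this.2, by simp, by simp⟩
  -- distinctness of colours
  have hne01 : ∀ {x y : V}, c x = 0 → c y = 1 → x ≠ y := by
    rintro x y hx hy rfl
    rw [hx] at hy
    exact absurd hy (by decide)
  have hne02 : ∀ {x y : V}, c x = 0 → c y = 2 → x ≠ y := by
    rintro x y hx hy rfl
    rw [hx] at hy
    exact absurd hy (by decide)
  have hne12 : ∀ {x y : V}, c x = 1 → c y = 2 → x ≠ y := by
    rintro x y hx hy rfl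
    rw [hx] at hy
    exact absurd hy (by decide)
  have htriple : ∀ {x y z x' y' z' : V}, c x = 0 → c y = 1 → c z = 2 → c x' = 0 → c y' = 1 →
      c z' = 2 → ({x, y, z} : Finset V) = {x', y', z'} → x = x' ∧ y = y' ∧ z = z' := by
    intro x y z x' y' z' hx hy hz hx' hy' hz' heq
    have e1 : x ∈ ({x', y', z'} : Finset V) := by rw [← heq]; simp
    have e2 : y ∈ ({x', y', z'} : Finset V) := by rw [← heq]; simp
    have e3 : z ∈ ({x', y', z'} : Finset V) := by rw [← heq]; simp
    simp only [mem_insert, mem_singleton] at e1 e2 e3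
    refine ⟨?_, ?_, ?_⟩
    · rcases e1 with e | e | e
      · exact e
      · exact absurd e (hne01 hx hy')
      · exact absurd e (hne02 hx hz')
    · rcases e2 with e | e | e
      · exact absurd e.symm (hne01 hx' hy)
      · exact e
      · exact absurd e (hne12 hy hz')
    · rcases e3 with e | e | e
      · exact absurd e.symm (hne02 hx' hz)
      · exact absurd e.symm (hne12 hy' hz)
      · exact e
  -- fibres
  have hfib : ∀ (a : V), c a = 0 → ∀ (β : V → V) (Z : Finset V), (∀ z ∈ Z, c z = 2 ∧ c (β z) = 1 ∧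
      ({a, β z, z} : Finset V) ∈ H) → ∀ b, #{z ∈ Z | β z = b} ≤ 3 := by
    intro a ha β Z hZ b
    by_cases hab : a = b
    · have : {z ∈ Z | β z = b} = ∅ := by
        rw [filter_eq_empty_iff]
        intro z hz hzb
        have := (hZ z hz).2.1
        rw [hzb, ← hab, ha] at this
        exact absurd this (by decide)
      rw [this]
      simp
    have h1 : #{z ∈ Z | β z = b} ≤ #{e ∈ H | a ∈ e ∧ b ∈ e} := by
      apply card_le_card_of_injOn (fun z => ({a, b, z} : Finset V))
      · intro z hz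
        simp only [coe_filter, Set.mem_ofPred_eq] at hz ⊢
        have := (hZ z hz.1).2.2
        rw [hz.2] at this
        exact ⟨this, by simp, by simp⟩
      · intro z hz z' hz' heq
        simp only [coe_filter, Set.mem_ofPred_eq] at hz hz'
        have hb : c b = 1 := by
          rw [← hz.2]
          exact (hZ z hz.1).2.1
        exact (htriple ha hb (hZ z hz.1).1 ha hb (hZ z' hz'.1).1 heq).2.2
    have h2 := codeg_lt h3 hF hk hab
    omega
  -- the parts
  set Z1 := I.filter fun z => β z ∉ nbp H c 1 a' with hZ1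
  set Z2 := I.filter fun z => β' z ∉ nbp H c 1 a with hZ2
  set Z3 := I.filter fun z => β z = β' z with hZ3
  have hcov : I ⊆ Z1 ∪ Z2 ∪ Z3 := by
    intro z hz
    by_contra hno
    simp only [hZ1, hZ2, hZ3, mem_union, mem_filter, not_or, not_and, not_not] at hno
    have h1 := hno.1.1 hz
    have h2 := hno.1.2 hz
    have h4 := hno.2 hz
    obtain ⟨z1, hz1, he1⟩ := exists_z h ha' h1
    obtain ⟨z2, hz2, he2⟩ := exists_z h ha h2
    have hb := hβ z (mem_inter.1 hz).1
    have hb' := hβ' z (mem_inter.1 hz).2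
    have hcz := hIz z hz
    set X : Finset V := {a, a', β z, β' z, z, z1, z2} with hX
    have hXc : #X ≤ 7 := by
      rw [hX]
      exact (card_insert_le _ _).trans (Nat.succ_le_succ card_le_six)
    have hlt := not_free_of_le hF hk X hXc
    have hsub : ({{a, β z, z}, {a', β' z, z}, {a', β z, z1}, {a, β' z, z2}} :
        Finset (Finset V)) ⊆ {e ∈ H | e ⊆ X} := by
      intro e he
      simp only [mem_insert, mem_singleton] at he
      rw [mem_filter]
      rcases he with rfl | rfl | rfl | rfl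
      · exact ⟨hb.2, sub3 (by simp [hX]) (by simp [hX]) (by simp [hX])⟩
      · exact ⟨hb'.2, sub3 (by simp [hX]) (by simp [hX]) (by simp [hX])⟩
      · exact ⟨he1, sub3 (by simp [hX]) (by simp [hX]) (by simp [hX])⟩
      · exact ⟨he2, sub3 (by simp [hX]) (by simp [hX]) (by simp [hX])⟩
    have hcard : #({{a, β z, z}, {a', β' z, z}, {a', β z, z1}, {a, β' z, z2}} :
        Finset (Finset V)) = 4 := by
      rw [card_insert_of_notMem, card_insert_of_notMem, card_insert_of_notMem, card_singleton]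
      · rw [mem_singleton]
        intro heq
        exact haa (htriple ha' hb.1 hz1 ha hb'.1 hz2 heq).1.symm
      · simp only [mem_insert, mem_singleton, not_or]
        refine ⟨fun heq => h4 (htriple ha' hb'.1 hcz ha' hb.1 hz1 heq).2.1.symm, fun heq =>
          haa (htriple ha' hb'.1 hcz ha hb'.1 hz2 heq).1.symm⟩
      · simp only [mem_insert, mem_singleton, not_or]
        refine ⟨fun heq => haa (htriple ha hb.1 hcz ha' hb'.1 hcz heq).1, fun heq =>
          haa (htriple ha hb.1 hcz ha' hb.1 hz1 heq).1, fun heq =>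
          h4 (htriple ha hb.1 hcz ha hb'.1 hz2 heq).2.1⟩
    have := card_le_card hsub
    rw [hcard] at this
    omega
  have hc1 : #Z1 ≤ 3 * #(nbp H c 1 a \ nbp H c 1 a') := by
    refine card_le_mul_card_image_of_maps_to (f := β) ?_ 3 ?_
    · intro z hz
      rw [hZ1, mem_filter] at hz
      exact mem_sdiff.2 ⟨hmemβ z hz.1, hz.2⟩
    · intro b _
      apply hfib a ha β Z1
      intro z hz
      rw [hZ1, mem_filter] at hz
      have := hβ z (mem_inter.1 hz.1).1
      exact ⟨hIz z hz.1, this.1, this.2⟩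
  have hc2 : #Z2 ≤ 3 * #(nbp H c 1 a' \ nbp H c 1 a) := by
    refine card_le_mul_card_image_of_maps_to (f := β') ?_ 3 ?_
    · intro z hz
      rw [hZ2, mem_filter] at hz
      exact mem_sdiff.2 ⟨hmemβ' z hz.1, hz.2⟩
    · intro b _
      apply hfib a' ha' β' Z2
      intro z hz
      rw [hZ2, mem_filter] at hz
      have := hβ' z (mem_inter.1 hz.1).2
      exact ⟨hIz z hz.1, this.1, this.2⟩
  have hc3 : #Z3 ≤ 1 := by
    rw [card_le_one]
    intro z hz z' hz'
    by_contra hne
    rw [hZ3, mem_filter] at hz hz'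
    have hb := hβ z (mem_inter.1 hz.1).1
    have hb' := hβ' z (mem_inter.1 hz.1).2
    have hd := hβ z' (mem_inter.1 hz'.1).1
    have hd' := hβ' z' (mem_inter.1 hz'.1).2
    rw [← hz.2] at hb'
    rw [← hz'.2] at hd'
    have hcz := hIz z hz.1
    have hcz' := hIz z' hz'.1
    set X : Finset V := {a, a', β z, β z', z, z'} with hX
    have hXc : #X ≤ 7 := by
      rw [hX]
      exact card_le_six.trans (by omega)
    have hlt := not_free_of_le hF hk X hXc
    have hsub : ({{a, β z, z}, {a', β z, z}, {a, β z', z'}, {a', β z', z'}} :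
        Finset (Finset V)) ⊆ {e ∈ H | e ⊆ X} := by
      intro e he
      simp only [mem_insert, mem_singleton] at he
      rw [mem_filter]
      rcases he with rfl | rfl | rfl | rfl
      · exact ⟨hb.2, sub3 (by simp [hX]) (by simp [hX]) (by simp [hX])⟩
      · exact ⟨hb'.2, sub3 (by simp [hX]) (by simp [hX]) (by simp [hX])⟩
      · exact ⟨hd.2, sub3 (by simp [hX]) (by simp [hX]) (by simp [hX])⟩
      · exact ⟨hd'.2, sub3 (by simp [hX]) (by simp [hX]) (by simp [hX])⟩
    have hcard : #({{a, β z, z}, {a', β z, z}, {a, β z', z'}, {a', β z', z'}} :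
        Finset (Finset V)) = 4 := by
      rw [card_insert_of_notMem, card_insert_of_notMem, card_insert_of_notMem, card_singleton]
      · rw [mem_singleton]
        intro heq
        exact haa (htriple ha hd.1 hcz' ha' hd.1 hcz' heq).1
      · simp only [mem_insert, mem_singleton, not_or]
        exact ⟨fun heq => hne (htriple ha' hb.1 hcz ha hd.1 hcz' heq).2.2, fun heq =>
          hne (htriple ha' hb.1 hcz ha' hd.1 hcz' heq).2.2⟩
      · simp only [mem_insert, mem_singleton, not_or]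
        exact ⟨fun heq => haa (htriple ha hb.1 hcz ha' hb.1 hcz heq).1, fun heq =>
          hne (htriple ha hb.1 hcz ha hd.1 hcz' heq).2.2, fun heq =>
          hne (htriple ha hb.1 hcz ha' hd.1 hcz' heq).2.2⟩
    have := card_le_card hsub
    rw [hcard] at this
    omega
  have h5 : #(symmDiff (nbp H c 1 a) (nbp H c 1 a')) =
      #(nbp H c 1 a \ nbp H c 1 a') + #(nbp H c 1 a' \ nbp H c 1 a) := by
    rw [show symmDiff (nbp H c 1 a) (nbp H c 1 a') =
      (nbp H c 1 a \ nbp H c 1 a') ∪ (nbp H c 1 a' \ nbp H c 1 a) from rfl]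
    apply card_union_of_disjoint
    rw [disjoint_left]
    intro x hx hx'
    rw [mem_sdiff] at hx hx'
    exact hx.2 hx'.1
  have h6 := (card_le_card hcov).trans ((card_union_le _ _).trans
    (Nat.add_le_add_right (card_union_le _ _) _))
  omega

/-- Counting the pairs between the parts 0 and 2. -/
lemma card_le_sum_nbp {c : V → Fin 3} (h : Tripart H c) (hF : Free H 7)
    (hk : 7 ≤ Fintype.card V) : #H ≤ 3 * ∑ a ∈ univ.filter (fun a => c a = 0), #(nbp H c 2 a) := by
  classical
  have h3 := h.card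
  have h1 : H ⊆ (univ.filter (fun a => c a = 0)).biUnion fun a => {e ∈ H | a ∈ e} := by
    intro e he
    obtain ⟨x, y, z, hx, hy, hz, rfl⟩ := h e he
    rw [mem_biUnion]
    exact ⟨x, by simp [hx], by rw [mem_filter]; exact ⟨he, by simp⟩⟩
  refine (card_le_card h1).trans (card_biUnion_le.trans ?_)
  rw [mul_sum]
  apply sum_le_sum
  intro a ha
  rw [mem_filter] at ha
  have h2 : {e ∈ H | a ∈ e} ⊆ (nbp H c 2 a).biUnion fun z => {e ∈ H | a ∈ e ∧ z ∈ e} := by
    intro e he
    rw [mem_filter] at he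
    obtain ⟨x, y, z, hx, hy, hz, rfl⟩ := h e he.1
    rw [mem_biUnion]
    refine ⟨z, mem_nbp.2 ⟨hz, _, he.1, he.2, by simp⟩, ?_⟩
    rw [mem_filter]
    exact ⟨he.1, he.2, by simp⟩
  refine (card_le_card h2).trans ?_
  refine (card_biUnion_le_card_mul _ _ 3 ?_).trans (by rw [mul_comm])
  intro z hz
  have hne : a ≠ z := by
    rintro rfl
    have := (mem_nbp.1 hz).1
    rw [ha.2] at this
    exact absurd this (by decide)
  have := codeg_lt h3 hF hk hne
  omega

/-- Many large sets have a large intersection. -/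
lemma inter_large {ι : Type} (Q : Finset ι) (S : ι → Finset V) (t I : ℝ) (ht : 0 < t)
    (hS : ∀ a ∈ Q, t ≤ (#(S a) : ℝ)) (hI : ∀ a ∈ Q, ∀ b ∈ Q, a ≠ b → (#(S a ∩ S b) : ℝ) ≤ I)
    (hI0 : 0 ≤ I)
    (hQ : 2 * (Fintype.card V : ℝ) ≤ #Q * t) (hV : 0 < Fintype.card V) :
    t ^ 2 ≤ 2 * Fintype.card V * I := by
  classical
  set n : ℝ := (Fintype.card V : ℝ) with hn
  have hnpos : 0 < n := by rw [hn]; exact_mod_cast hV
  set T' : ℝ := ∑ a ∈ Q, (#(S a) : ℝ) with hT'
  have h1 : #Q * t ≤ T' := by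
    rw [hT', ← nsmul_eq_mul]
    exact card_nsmul_le_sum _ _ _ hS
  have h2 : T' = ∑ z : V, (#{a ∈ Q | z ∈ S a} : ℝ) := by
    rw [hT']
    have : ∀ a ∈ Q, (#(S a) : ℝ) = ∑ z : V, if z ∈ S a then (1 : ℝ) else 0 := by
      intro a _
      simp
    rw [sum_congr rfl this, sum_comm]
    apply sum_congr rfl
    intro z _
    simp
  have h4 : ∑ z : V, (#{a ∈ Q | z ∈ S a} : ℝ) ^ 2 = ∑ a ∈ Q, ∑ b ∈ Q, (#(S a ∩ S b) : ℝ) := by
    have e1 : ∀ z : V, (#{a ∈ Q | z ∈ S a} : ℝ) ^ 2 =
        ∑ a ∈ Q, ∑ b ∈ Q, if z ∈ S a ∩ S b then (1 : ℝ) else 0 := by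
      intro z
      have : (#{a ∈ Q | z ∈ S a} : ℝ) = ∑ a ∈ Q, if z ∈ S a then (1 : ℝ) else 0 := by simp
      rw [this, sq, sum_mul_sum]
      apply sum_congr rfl
      intro a _
      apply sum_congr rfl
      intro b _
      by_cases h1 : z ∈ S a <;> by_cases h2 : z ∈ S b <;> simp [h1, h2]
    rw [sum_congr rfl fun z _ => e1 z, sum_comm]
    apply sum_congr rfl
    intro a _
    rw [sum_comm]
    apply sum_congr rfl
    intro b _
    rw [Finset.sum_boole, Finset.filter_mem_eq_inter, univ_inter]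
  have h5 : ∑ a ∈ Q, ∑ b ∈ Q, (#(S a ∩ S b) : ℝ) ≤ T' + (#Q : ℝ) ^ 2 * I := by
    calc ∑ a ∈ Q, ∑ b ∈ Q, (#(S a ∩ S b) : ℝ) ≤ ∑ a ∈ Q, ((#(S a) : ℝ) + #Q * I) := by
          apply sum_le_sum
          intro a ha
          rw [← add_sum_erase Q _ ha, inter_self]
          apply add_le_add le_rfl
          refine (sum_le_card_nsmul _ _ I ?_).trans ?_
          · intro b hb
            rw [mem_erase] at hb
            exact hI a ha b hb.2 hb.1.symm
          · rw [nsmul_eq_mul]
            apply mul_le_mul_of_nonneg_right _ hI0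
            exact_mod_cast card_le_card (erase_subset _ _)
      _ = _ := by
          rw [sum_add_distrib, sum_const, nsmul_eq_mul, hT']
          ring
  have h6 : T' ^ 2 ≤ n * ∑ z : V, (#{a ∈ Q | z ∈ S a} : ℝ) ^ 2 := by
    rw [h2]
    have := sq_sum_le_card_mul_sum_sq (s := (univ : Finset V))
      (f := fun z => (#{a ∈ Q | z ∈ S a} : ℝ))
    rw [card_univ] at this
    exact this
  rw [h4] at h6
  have h7 : T' ^ 2 ≤ n * (T' + (#Q : ℝ) ^ 2 * I) :=
    h6.trans (mul_le_mul_of_nonneg_left h5 hnpos.le)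
  have h8 : 2 * n ≤ T' := hQ.trans h1
  have h9 : T' ^ 2 ≤ 2 * n * ((#Q : ℝ) ^ 2 * I) := by nlinarith
  have hQpos : 0 < (#Q : ℝ) := by
    by_contra hneg
    push Not at hneg
    have : (#Q : ℝ) * t ≤ 0 := mul_nonpos_of_nonpos_of_nonneg hneg ht.le
    linarith
  have h10 : ((#Q : ℝ) * t) ^ 2 ≤ T' ^ 2 := pow_le_pow_left₀ (by positivity) h1 2
  have h11 : (#Q : ℝ) ^ 2 * t ^ 2 ≤ (#Q : ℝ) ^ 2 * (2 * n * I) := by nlinarith
  exact le_of_mul_le_mul_left h11 (by positivity)

end Pool.Agent.Helper46.BES
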