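import Pool.Agent.Helper46.BES.One

/-!
# Tripartite triple systems without 7 vertices spanning 4 edges: the bound
-/

set_option autoImplicit false

open Finset

namespace Pool.Agent.Helper46.BES

variable {V : Type} [DecidableEq V] [Fintype V] {H : Finset (Finset V)}

omit [Fintype V] in
/-- A maximal separated subset is a net. -/
lemma exists_net {ι : Type} (T : Finset ι) (M : ι → Finset V) (κ : ℕ) (hκ : 0 < κ) :
    ∃ R ⊆ T, (∀ a ∈ R, ∀ b ∈ R, a ≠ b → κ ≤ #(symmDiff (M a) (M b))) ∧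
      ∀ a ∈ T, ∃ r ∈ R, #(symmDiff (M a) (M r)) < κ := by
  obtain ⟨P, hP⟩ : ∃ P : Finset ι → Prop, ∀ R, P R ↔
    ∀ a ∈ R, ∀ b ∈ R, a ≠ b → κ ≤ #(symmDiff (M a) (M b)) := ⟨_, fun _ => Iff.rfl⟩
  classical
  obtain ⟨R, hR, hmax⟩ := exists_max_image (T.powerset.filter P) card
    ⟨∅, by rw [mem_filter, hP]; simp⟩
  rw [mem_filter, mem_powerset, hP] at hR
  refine ⟨R, hR.1, hR.2, ?_⟩
  intro a ha
  by_contra hno
  push Not at hno
  have haR : a ∉ R := by
    intro h
    have := hno a h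
    rw [symmDiff_self] at this
    simp only [bot_eq_empty, card_empty] at this
    omega
  have := hmax (insert a R) (by
    rw [mem_filter, mem_powerset, hP]
    refine ⟨insert_subset ha hR.1, ?_⟩
    intro x hx y hy hxy
    rw [mem_insert] at hx hy
    rcases hx with rfl | hx <;> rcases hy with rfl | hy
    · exact absurd rfl hxy
    · exact hno y hy
    · rw [symmDiff_comm]
      exact hno x hx
    · exact hR.2 x hx y hy hxy)
  rw [card_insert_of_notMem haR] at this
  omega

/-- The pairs between the parts 0 and 1 on which the shadow of `H` and the relation `R` differ. -/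
noncomputable def diffs1 (H : Finset (Finset V)) (c : V → Fin 3) (R : V → V → Prop) :
    Finset (V × V) :=
  open Classical in
  {p | c p.1 = 0 ∧ c p.2 = 1 ∧ ¬ (R p.1 p.2 ↔ ∃ e ∈ H, p.1 ∈ e ∧ p.2 ∈ e)}

/-- The part 1 of the set of the vertices related to `v`. -/
noncomputable def nbR (c : V → Fin 3) (R : V → V → Prop) (v : V) : Finset V :=
  open Classical in {w | c w = 1 ∧ R v w}

omit [DecidableEq V] in
lemma mem_nbR {c : V → Fin 3} {R : V → V → Prop} {v w : V} :
    w ∈ nbR c R v ↔ c w = 1 ∧ R v w := by simp [nbR]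

lemma card_diffs1 (c : V → Fin 3) (R : V → V → Prop) :
    #(diffs1 H c R) = ∑ v ∈ univ.filter (fun v => c v = 0),
      #(symmDiff (nbp H c 1 v) (nbR c R v)) := by
  classical
  rw [diffs1, card_filter, ← univ_product_univ, sum_product, sum_filter]
  apply sum_congr rfl
  intro v _
  by_cases hv : c v = 0
  · rw [if_pos hv, ← card_filter]
    congr 1
    ext w
    simp only [mem_filter, mem_univ, true_and, mem_symmDiff, mem_nbp, mem_nbR]
    constructor
    · rintro ⟨-, hw, hn⟩
      by_cases h : R v w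
      · right
        exact ⟨⟨hw, h⟩, fun h' => hn ⟨fun _ => h'.2, fun _ => h⟩⟩
      · left
        refine ⟨⟨hw, ?_⟩, fun h' => h h'.2⟩
        by_contra h'
        exact hn ⟨fun h'' => absurd h'' h, fun h'' => absurd h'' h'⟩
    · rintro (⟨⟨hw, h1⟩, h2⟩ | ⟨⟨hw, h1⟩, h2⟩)
      · exact ⟨hv, hw, fun h => h2 ⟨hw, h.2 h1⟩⟩
      · exact ⟨hv, hw, fun h => h2 ⟨hw, h.1 h1⟩⟩
  · rw [if_neg hv]
    apply sum_eq_zero
    intro w _
    rw [if_neg]
    exact fun h => hv h.1

/-- The main estimate with one tame shadow. -/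
theorem one_bound (d : ℕ) {c : V → Fin 3} (h : Tripart H c) (hF : Free H 7)
    (hk : 7 ≤ Fintype.card V) (R : V → V → Prop)
    (hd : ∀ S : Finset V, (∀ w ∈ S, c w = 1) →
      (∀ T ⊆ S, ∃ v, c v = 0 ∧ ∀ w ∈ S, R v w ↔ w ∈ T) → #S ≤ d)
    (n q t : ℝ) (hn : n = Fintype.card V) (hq : q = #H) (ht : q = 6 * n * t) :
    t ^ 2 ≤ (4 + 192 * d) * n ∨ t ^ 3 ≤ 96 * n * (#(diffs1 H c R) : ℝ) ∨
      t ^ (2 * d + 2) ≤ 8 * 576 ^ d * n ^ (2 * d + 1) := by
  classical
  have hnpos : 0 < n := by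
    rw [hn]
    have : 0 < Fintype.card V := by omega
    exact_mod_cast this
  by_contra hcon
  push Not at hcon
  obtain ⟨hc1, hc2, hc3⟩ := hcon
  have hdR : (0 : ℝ) ≤ d := Nat.cast_nonneg _
  have ht0 : 0 ≤ t := by
    by_contra hneg
    push Not at hneg
    have h1 : 6 * n * t < 0 := mul_neg_of_pos_of_neg (by positivity) hneg
    have h2 : (0 : ℝ) ≤ #H := Nat.cast_nonneg _
    linarith
  have htpos : 0 < t := by
    rcases ht0.lt_or_eq with h | h
    · exact h
    · rw [← h] at hc1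
      have : 0 ≤ (4 + 192 * (d : ℝ)) * n := by positivity
      norm_num at hc1
      linarith
  set A : Finset V := univ.filter fun a => c a = 0 with hA
  have hsum : 2 * (n * t) ≤ ∑ a ∈ A, (#(nbp H c 2 a) : ℝ) := by
    have h1 := card_le_sum_nbp h hF hk
    have h2 : (#H : ℝ) ≤ 3 * ∑ a ∈ A, (#(nbp H c 2 a) : ℝ) := by exact_mod_cast h1
    rw [← hq, ht] at h2
    linarith
  have hAc : (#A : ℝ) ≤ n := by
    rw [hn]
    exact_mod_cast card_le_univ _
  have hdeg : ∀ v, (#(nbp H c 2 v) : ℝ) ≤ n := by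
    intro v
    rw [hn]
    exact_mod_cast card_le_univ _
  have htn : t ≤ n := by
    have h1 : ∑ a ∈ A, (#(nbp H c 2 a) : ℝ) ≤ n * n := by
      refine (sum_le_card_nsmul _ _ n fun v _ => hdeg v).trans ?_
      rw [nsmul_eq_mul]
      exact mul_le_mul_of_nonneg_right hAc hnpos.le
    have h2 : n * (2 * t) ≤ n * n := by linarith
    have := le_of_mul_le_mul_left h2 hnpos
    linarith
  set T : Finset V := A.filter fun v => t ≤ (#(nbp H c 2 v) : ℝ) with hT
  have hTc : t ≤ (#T : ℝ) := by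
    have h1 : ∑ a ∈ A, (#(nbp H c 2 a) : ℝ) ≤ n * t + #T * n := by
      rw [← sum_filter_add_sum_filter_not A (fun v => t ≤ (#(nbp H c 2 v) : ℝ)), add_comm]
      apply add_le_add
      · refine (sum_le_card_nsmul _ _ t ?_).trans ?_
        · intro v hv
          rw [mem_filter] at hv
          exact (not_le.1 hv.2).le
        · rw [nsmul_eq_mul]
          apply mul_le_mul_of_nonneg_right _ htpos.le
          refine le_trans ?_ hAc
          exact_mod_cast card_le_card (filter_subset _ _)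
      · refine (sum_le_card_nsmul _ _ n ?_).trans ?_
        · intro v _
          exact hdeg v
        · rw [nsmul_eq_mul]
    have h2 : n * t ≤ n * #T := by linarith
    exact le_of_mul_le_mul_left h2 hnpos
  set κ₀ : ℝ := t ^ 2 / (48 * n) with hκ₀
  have hκ₀pos : 0 < κ₀ := by positivity
  set T' : Finset V := T.filter fun v =>
    (#(symmDiff (nbp H c 1 v) (nbR c R v)) : ℝ) ≤ κ₀ with hT'
  have hT'c : t / 2 ≤ (#T' : ℝ) := by
    by_contra hlt
    push Not at hlt
    apply absurd hc2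
    push Not
    have h0 : #T' + #(T.filter fun v =>
        ¬ (#(symmDiff (nbp H c 1 v) (nbR c R v)) : ℝ) ≤ κ₀) = #T :=
      card_filter_add_card_filter_not _
    have h1 : (#T' : ℝ) + (#(T.filter fun v =>
        ¬ (#(symmDiff (nbp H c 1 v) (nbR c R v)) : ℝ) ≤ κ₀) : ℝ) = (#T : ℝ) := by
      rw [← Nat.cast_add, h0]
    set T'' := T.filter fun v => ¬ (#(symmDiff (nbp H c 1 v) (nbR c R v)) : ℝ) ≤ κ₀
    have h2 : t / 2 ≤ (#T'' : ℝ) := by linarith
    have h4 : (#T'' : ℝ) * κ₀ ≤ (#(diffs1 H c R) : ℝ) := by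
      rw [card_diffs1]
      push_cast
      calc (#T'' : ℝ) * κ₀ = ∑ v ∈ T'', κ₀ := by
            rw [sum_const, nsmul_eq_mul]
        _ ≤ ∑ v ∈ T'', (#(symmDiff (nbp H c 1 v) (nbR c R v)) : ℝ) := by
            apply sum_le_sum
            intro v hv
            rw [mem_filter] at hv
            exact (not_le.1 hv.2).le
        _ ≤ ∑ v ∈ A, (#(symmDiff (nbp H c 1 v) (nbR c R v)) : ℝ) :=
            sum_le_sum_of_subset_of_nonneg ((filter_subset _ _).trans (filter_subset _ _))
              fun _ _ _ => Nat.cast_nonneg _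
    have h5 : t / 2 * κ₀ ≤ (#(diffs1 H c R) : ℝ) :=
      (mul_le_mul_of_nonneg_right h2 hκ₀pos.le).trans h4
    have h6 : t ^ 3 = 96 * n * (t / 2 * κ₀) := by
      rw [hκ₀]
      field_simp
      norm_num
    rw [h6]
    exact mul_le_mul_of_nonneg_left h5 (by positivity)
  set κ : ℕ := ⌈κ₀⌉₊ with hκ
  have hκpos : 0 < κ := Nat.ceil_pos.2 hκ₀pos
  have hκle : κ₀ ≤ κ := Nat.le_ceil _
  have hκlt : (κ : ℝ) < κ₀ + 1 := Nat.ceil_lt_add_one hκ₀pos.le
  have hκ4 : 4 * d < κ := by
    have h1 : (4 * d : ℝ) < κ := by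
      refine lt_of_lt_of_le ?_ hκle
      rw [hκ₀, lt_div_iff₀ (by positivity)]
      nlinarith
    exact_mod_cast h1
  obtain ⟨N, hNT, hNsep, hNnet⟩ := exists_net T' (nbR c R) κ hκpos
  have hT'A : ∀ v ∈ T', c v = 0 := by
    intro v hv
    rw [hT', mem_filter, hT, mem_filter, hA, mem_filter] at hv
    exact hv.1.1.2
  have hNc := card_sep_le (nbR c R) N d κ (by
    intro S hS
    apply hd
    · intro w hw
      obtain ⟨v, -, hv⟩ := hS S (Subset.refl _)
      exact (mem_nbR.1 ((hv w hw).2 hw)).1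
    · intro U hU
      obtain ⟨v, hvN, hv⟩ := hS U hU
      refine ⟨v, hT'A v (hNT hvN), fun w hw => ?_⟩
      rw [← hv w hw, mem_nbR]
      obtain ⟨v', -, hv'⟩ := hS S (Subset.refl _)
      exact ⟨fun h => ⟨(mem_nbR.1 ((hv' w hw).2 hw)).1, h⟩, fun h => h.2⟩) hNsep hκ4 (by omega)
    (192 * (n / t) ^ 2) (by
    have h5 : 1 ≤ (n / t) ^ 2 := by
      apply one_le_pow₀
      rw [le_div_iff₀ htpos]
      linarith
    linarith) (by
    rw [← hn]
    calc 4 * n / κ ≤ 4 * n / κ₀ := by
          apply div_le_div_of_nonneg_left (by positivity) (by positivity) hκle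
      _ = 192 * (n / t) ^ 2 := by
          rw [hκ₀]
          field_simp
          norm_num)
  -- the classes
  have hclass : ∀ r ∈ N, (#(T'.filter fun a => #(symmDiff (nbR c R a) (nbR c R r)) < κ) : ℝ) ≤
      2 * n / t := by
    intro r hr
    by_contra hbig
    push Not at hbig
    set Q := T'.filter fun a => #(symmDiff (nbR c R a) (nbR c R r)) < κ with hQ
    have hQt : 2 * n ≤ (#Q : ℝ) * t := by
      rw [div_lt_iff₀ htpos] at hbig
      exact hbig.le
    have hI := inter_large Q (nbp H c 2) t (12 * κ₀ + 1) htpos (by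
      intro a ha
      rw [hQ, mem_filter, hT', mem_filter, hT, mem_filter] at ha
      exact ha.1.1.2) (by
      intro a ha b hb hab
      rw [hQ, mem_filter] at ha hb
      have h1 := card_inter_le h hF hk (hT'A a ha.1) (hT'A b hb.1) hab
      have h2 : (#(nbp H c 2 a ∩ nbp H c 2 b) : ℝ) ≤
          3 * #(symmDiff (nbp H c 1 a) (nbp H c 1 b)) + 1 := by exact_mod_cast h1
      have h4 : (#(symmDiff (nbp H c 1 a) (nbp H c 1 b)) : ℝ) ≤
          #(symmDiff (nbp H c 1 a) (nbR c R a)) + #(symmDiff (nbR c R a) (nbR c R b)) +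
            #(symmDiff (nbp H c 1 b) (nbR c R b)) := by
        exact_mod_cast symmDiff_tri _ _ _ _
      have h5 : #(symmDiff (nbR c R a) (nbR c R b)) ≤ #(symmDiff (nbR c R a) (nbR c R r)) +
          #(symmDiff (nbR c R b) (nbR c R r)) := by
        have : symmDiff (nbR c R a) (nbR c R b) ⊆ symmDiff (nbR c R a) (nbR c R r) ∪
            symmDiff (nbR c R b) (nbR c R r) := by
          intro x
          simp only [mem_symmDiff, mem_union]
          tauto
        exact (card_le_card this).trans (card_union_le _ _)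
      have h6 : (#(symmDiff (nbR c R a) (nbR c R b)) : ℝ) + 2 ≤ 2 * κ := by
        have : #(symmDiff (nbR c R a) (nbR c R b)) + 2 ≤ 2 * κ := by omega
        exact_mod_cast this
      have h7 : (#(symmDiff (nbp H c 1 a) (nbR c R a)) : ℝ) ≤ κ₀ := by
        rw [hT', mem_filter] at ha
        exact ha.1.2
      have h8 : (#(symmDiff (nbp H c 1 b) (nbR c R b)) : ℝ) ≤ κ₀ := by
        rw [hT', mem_filter] at hb
        exact hb.1.2
      linarith) (by positivity) (by rw [← hn]; exact hQt) (by omega)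
    rw [← hn] at hI
    have h9 : 2 * n * (12 * κ₀ + 1) = t ^ 2 / 2 + 2 * n := by
      rw [hκ₀]
      field_simp
      ring
    rw [h9] at hI
    have : 0 ≤ 192 * (d : ℝ) * n := by positivity
    nlinarith
  have hT'le : (#T' : ℝ) ≤ #N * (2 * n / t) := by
    have h1 : T' ⊆ N.biUnion fun r => T'.filter fun a =>
        #(symmDiff (nbR c R a) (nbR c R r)) < κ := by
      intro a ha
      obtain ⟨r, hr, hlt⟩ := hNnet a ha
      rw [mem_biUnion]
      exact ⟨r, hr, mem_filter.2 ⟨ha, hlt⟩⟩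
    have h2 : (#T' : ℝ) ≤ ∑ r ∈ N, (#(T'.filter fun a =>
        #(symmDiff (nbR c R a) (nbR c R r)) < κ) : ℝ) := by
      exact_mod_cast (card_le_card h1).trans card_biUnion_le
    refine h2.trans ((sum_le_card_nsmul _ _ (2 * n / t) hclass).trans ?_)
    rw [nsmul_eq_mul]
  have hfin : t / 2 ≤ 2 * (3 * (192 * (n / t) ^ 2)) ^ d * (2 * n / t) :=
    hT'c.trans (hT'le.trans (mul_le_mul_of_nonneg_right hNc (by positivity)))
  apply absurd hc3
  push Not
  have e1 : (3 * (192 * (n / t) ^ 2)) ^ d = 576 ^ d * n ^ (2 * d) / t ^ (2 * d) := by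
    rw [← mul_assoc, mul_pow, ← pow_mul, div_pow]
    norm_num
    ring
  rw [e1] at hfin
  have e2 : t ^ (2 * d + 2) = 2 * t ^ (2 * d) * t * (t / 2) := by
    rw [pow_add]
    ring
  rw [e2]
  calc 2 * t ^ (2 * d) * t * (t / 2) ≤ 2 * t ^ (2 * d) * t *
        (2 * (576 ^ d * n ^ (2 * d) / t ^ (2 * d)) * (2 * n / t)) :=
        mul_le_mul_of_nonneg_left hfin (by positivity)
    _ = 8 * 576 ^ d * n ^ (2 * d + 1) := by
        rw [pow_succ]
        field_simp
        norm_num

/-- **Tripartite triple systems without 7 vertices spanning 4 edges, with one tame shadow.** -/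
theorem one_main (d : ℕ) (V : Type) [Fintype V] [DecidableEq V] (H : Finset (Finset V))
    (c : V → Fin 3) (h : ∀ e ∈ H, ∃ x y z, c x = 0 ∧ c y = 1 ∧ c z = 2 ∧ e = {x, y, z})
    (hF : ∀ K : Finset V, #K = 7 → #{e ∈ H | e ⊆ K} < 4) (R : V → V → Prop)
    (hd : ∀ S : Finset V, (∀ w ∈ S, c w = 1) →
        (∀ T ⊆ S, ∃ v, c v = 0 ∧ ∀ w ∈ S, R v w ↔ w ∈ T) → #S ≤ d) :
    (#H : ℝ) ≤ 144 * ((Fintype.card V : ℝ) ^ (2 - 1 / (2 * (d : ℝ) + 2)) +
      Real.sqrt d * (Fintype.card V : ℝ) ^ ((3 : ℝ) / 2) +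
      (Fintype.card V : ℝ) ^ ((4 : ℝ) / 3) * (#(diffs1 H c R) : ℝ) ^ ((1 : ℝ) / 3)) := by
  set n : ℝ := (Fintype.card V : ℝ) with hn
  have hn0 : 0 ≤ n := Nat.cast_nonneg _
  have hdR : (0 : ℝ) ≤ d := Nat.cast_nonneg _
  set D : ℝ := (#(diffs1 H c R) : ℝ) with hD
  have hD0 : 0 ≤ D := Nat.cast_nonneg _
  have h3 : ∀ e ∈ H, #e = 3 := Tripart.card h
  have hexp : (3 : ℝ) / 2 ≤ 2 - 1 / (2 * (d : ℝ) + 2) := by
    have : 1 / (2 * (d : ℝ) + 2) ≤ 1 / 2 := by
      apply one_div_le_one_div_of_le (by norm_num)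
      linarith
    linarith
  set N : ℝ := n ^ (2 - 1 / (2 * (d : ℝ) + 2)) with hN
  set W : ℝ := n ^ ((4 : ℝ) / 3) * D ^ ((1 : ℝ) / 3) with hW
  set U : ℝ := n ^ ((3 : ℝ) / 2) with hU
  have hN0 : 0 ≤ N := Real.rpow_nonneg hn0 _
  have hU0 : 0 ≤ U := Real.rpow_nonneg hn0 _
  have hW0 : 0 ≤ W := mul_nonneg (Real.rpow_nonneg hn0 _) (Real.rpow_nonneg hD0 _)
  have hs0 : 0 ≤ Real.sqrt d * U := mul_nonneg (Real.sqrt_nonneg _) hU0
  rcases Nat.eq_zero_or_pos (Fintype.card V) with h0 | h0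
  · have hH : #H = 0 := by
      rw [card_eq_zero]
      by_contra hne
      obtain ⟨e, he⟩ := nonempty_iff_ne_empty.2 hne
      have h1 := h3 e he
      have h2 := card_le_univ e
      omega
    rw [hH]
    push_cast
    positivity
  have hn1 : 1 ≤ n := by
    rw [hn]
    exact_mod_cast h0
  have hnpos : 0 < n := by linarith
  have hUN : U ≤ N := Real.rpow_le_rpow_of_exponent_le hn1 hexp
  have hnU : n * Real.sqrt n = U := by
    rw [hU, Real.sqrt_eq_rpow]
    conv_lhs => rw [← Real.rpow_one n, ← Real.rpow_mul hn0, ← Real.rpow_add hnpos]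
    norm_num
  have hnp : n ≤ U := by
    rw [hU]
    conv_lhs => rw [← Real.rpow_one n]
    exact Real.rpow_le_rpow_of_exponent_le hn1 (by norm_num)
  by_cases hk : 7 ≤ Fintype.card V
  · obtain ⟨t, ht⟩ : ∃ t : ℝ, (#H : ℝ) = 6 * n * t := ⟨#H / (6 * n), by field_simp⟩
    have ht0 : 0 ≤ t := by
      by_contra hneg
      push Not at hneg
      have h1 : 6 * n * t < 0 := mul_neg_of_pos_of_neg (by positivity) hneg
      have h2 : (0 : ℝ) ≤ #H := Nat.cast_nonneg _
      linarith
    rw [ht]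
    rcases one_bound d h hF hk R hd n #H t hn rfl ht with h | h | h
    · have h1 : t ≤ (2 + 14 * Real.sqrt d) * Real.sqrt n := by
        apply le_of_sq_le_sq _ (by positivity)
        rw [mul_pow, Real.sq_sqrt hn0]
        refine h.trans ?_
        apply mul_le_mul_of_nonneg_right _ hn0
        have e1 := Real.sq_sqrt hdR
        have e2 := Real.sqrt_nonneg (d : ℝ)
        nlinarith
      calc 6 * n * t ≤ 6 * n * ((2 + 14 * Real.sqrt d) * Real.sqrt n) :=
            mul_le_mul_of_nonneg_left h1 (by positivity)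
        _ = 12 * (n * Real.sqrt n) + 84 * (Real.sqrt d * (n * Real.sqrt n)) := by ring
        _ = 12 * U + 84 * (Real.sqrt d * U) := by rw [hnU]
        _ ≤ _ := by linarith
    · have h1 : t ≤ 5 * (n ^ ((1 : ℝ) / 3) * D ^ ((1 : ℝ) / 3)) := by
        apply le_of_pow_le_pow_left₀ (n := 3) (by norm_num) (by positivity)
        rw [mul_pow, mul_pow, ← Real.rpow_natCast (n ^ ((1 : ℝ) / 3)), ← Real.rpow_mul hn0,
          ← Real.rpow_natCast (D ^ ((1 : ℝ) / 3)), ← Real.rpow_mul hD0]
        norm_num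
        refine h.trans ?_
        nlinarith [mul_nonneg hn0 hD0]
      calc 6 * n * t ≤ 6 * n * (5 * (n ^ ((1 : ℝ) / 3) * D ^ ((1 : ℝ) / 3))) :=
            mul_le_mul_of_nonneg_left h1 (by positivity)
        _ = 30 * W := by
            have : n ^ ((4 : ℝ) / 3) = n * n ^ ((1 : ℝ) / 3) := by
              conv_rhs => rw [← Real.rpow_one n, ← Real.rpow_mul hn0, ← Real.rpow_add hnpos]
              norm_num
            rw [hW, this]
            ring
        _ ≤ _ := by linarith
    · have h1 : t ≤ 24 * n ^ ((2 * (d : ℝ) + 1) / (2 * d + 2)) := by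
        apply le_of_pow_le_pow_left₀ (n := 2 * d + 2) (by omega) (by positivity)
        refine h.trans ?_
        rw [mul_pow (24 : ℝ), ← Real.rpow_natCast (n ^ ((2 * (d : ℝ) + 1) / (2 * d + 2))),
          ← Real.rpow_mul hn0]
        have e : (2 * (d : ℝ) + 1) / (2 * d + 2) * ((2 * d + 2 : ℕ) : ℝ) =
            ((2 * d + 1 : ℕ) : ℝ) := by
          push_cast
          field_simp
        rw [e, Real.rpow_natCast]
        apply mul_le_mul_of_nonneg_right _ (by positivity)
        have e4 : (24 : ℝ) ^ (2 * d + 2) = 576 * 576 ^ d := by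
          rw [pow_add, pow_mul]
          norm_num
          ring
        rw [e4]
        apply mul_le_mul_of_nonneg_right (by norm_num) (by positivity)
      have e2 : N = n * n ^ ((2 * (d : ℝ) + 1) / (2 * d + 2)) := by
        rw [hN]
        conv_rhs => rw [← Real.rpow_one n, ← Real.rpow_mul hn0, ← Real.rpow_add hnpos]
        congr 1
        field_simp
        ring
      calc 6 * n * t ≤ 6 * n * (24 * n ^ ((2 * (d : ℝ) + 1) / (2 * d + 2))) :=
            mul_le_mul_of_nonneg_left h1 (by positivity)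
        _ = 144 * N := by
            rw [e2]
            ring
        _ ≤ _ := by linarith
  · push Not at hk
    have h1 : #H ≤ Fintype.card V ^ 3 := by
      have h2 : H ⊆ powersetCard 3 univ := by
        intro e he
        rw [mem_powersetCard]
        exact ⟨subset_univ _, h3 e he⟩
      refine (card_le_card h2).trans ?_
      rw [card_powersetCard, card_univ]
      exact Nat.choose_le_pow _ _
    have h2 : (#H : ℝ) ≤ n ^ 3 := by
      rw [hn]
      exact_mod_cast h1
    have h4 : n ≤ 7 := by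
      rw [hn]
      exact_mod_cast hk.le
    calc (#H : ℝ) ≤ n ^ 3 := h2
      _ = n ^ 2 * n := by ring
      _ ≤ 7 ^ 2 * N :=
        mul_le_mul (pow_le_pow_left₀ hn0 h4 2) (hnp.trans hUN) hn0 (by positivity)
      _ ≤ _ := by linarith

end Pool.Agent.Helper46.BES
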