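import Pool.Agent.H456.Pack.Core
import Pool.Agent.Helper46.BES.Nbr

/-!
# Triple systems without `k` vertices spanning `k - 3` edges whose shadow is close to a graph of
bounded VC-dimension
-/

set_option autoImplicit false

open Finset

namespace Pool.Agent.Helper46.BES

/-- The number of the small subsets. -/
lemma card_small {V : Type*} [DecidableEq V] (J : Finset V) (d : ℕ) :
    #(J.powerset.filter fun s => #s ≤ d) ≤ ∑ i ∈ range (d + 1), (#J).choose i := by
  have h1 : J.powerset.filter (fun s => #s ≤ d) ⊆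
      (range (d + 1)).biUnion fun i => powersetCard i J := by
    intro s hs
    rw [mem_filter, mem_powerset] at hs
    rw [mem_biUnion]
    exact ⟨#s, mem_range.2 (by omega), mem_powersetCard.2 ⟨hs.1, rfl⟩⟩
  refine (card_le_card h1).trans (card_biUnion_le.trans ?_)
  apply sum_le_sum
  intro i _
  rw [card_powersetCard]

/-- A bound for the partial sums of binomial coefficients. -/
lemma sum_choose_le (d s : ℕ) (y : ℝ) (hy : 1 ≤ y) (hs : (s : ℝ) ≤ d * y) :
    ∑ i ∈ range (d + 1), (s.choose i : ℝ) ≤ (3 * y) ^ d := by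
  have hy0 : 0 < y := by linarith
  have h1 : ∑ i ∈ range (d + 1), (s.choose i : ℝ) ≤
      y ^ d * ∑ i ∈ range (d + 1), (s.choose i : ℝ) * (1 / y) ^ i := by
    rw [mul_sum]
    apply sum_le_sum
    intro i hi
    rw [mem_range] at hi
    have e : y ^ d = y ^ (d - i) * y ^ i := by
      rw [← pow_add]
      congr 1
      omega
    have h2 : y ^ d * ((s.choose i : ℝ) * (1 / y) ^ i) = y ^ (d - i) * (s.choose i : ℝ) := by
      rw [e, one_div, inv_pow]
      field_simp
    rw [h2]
    have h4 : (1 : ℝ) ≤ y ^ (d - i) := one_le_pow₀ hy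
    have h5 : (0 : ℝ) ≤ (s.choose i : ℝ) := Nat.cast_nonneg _
    nlinarith
  have h2 : ∑ i ∈ range (d + 1), (s.choose i : ℝ) * (1 / y) ^ i ≤ (1 + 1 / y) ^ s := by
    have h4 : (1 + 1 / y) ^ s = ∑ i ∈ range (s + 1), (s.choose i : ℝ) * (1 / y) ^ i := by
      rw [add_comm, add_pow]
      apply sum_congr rfl
      intro i _
      rw [one_pow, mul_one, mul_comm]
    rw [h4]
    have h5 : ∑ i ∈ range (d + 1), (s.choose i : ℝ) * (1 / y) ^ i ≤
        ∑ i ∈ range (max d s + 1), (s.choose i : ℝ) * (1 / y) ^ i := by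
      apply sum_le_sum_of_subset_of_nonneg
      · intro i hi
        rw [mem_range] at hi ⊢
        omega
      · intro i _ _
        positivity
    have h6 : ∑ i ∈ range (max d s + 1), (s.choose i : ℝ) * (1 / y) ^ i =
        ∑ i ∈ range (s + 1), (s.choose i : ℝ) * (1 / y) ^ i := by
      symm
      apply sum_subset
      · intro i hi
        rw [mem_range] at hi ⊢
        omega
      · intro i _ hi
        rw [mem_range] at hi
        rw [Nat.choose_eq_zero_of_lt (by omega)]
        simp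
    rw [← h6]
    exact h5
  have h3 : (1 + 1 / y) ^ s ≤ (3 : ℝ) ^ d := by
    calc (1 + 1 / y) ^ s ≤ (Real.exp (1 / y)) ^ s := by
          apply pow_le_pow_left₀ (by positivity)
          have := Real.add_one_le_exp (1 / y)
          linarith
      _ = Real.exp (s * (1 / y)) := by rw [Real.exp_nat_mul]
      _ ≤ Real.exp (d * 1) := by
          rw [Real.exp_le_exp, mul_one, mul_one_div, div_le_iff₀ hy0]
          exact hs
      _ = (Real.exp 1) ^ d := by rw [Real.exp_nat_mul]
      _ ≤ 3 ^ d := by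
          apply pow_le_pow_left₀ (Real.exp_pos _).le
          have := Real.exp_one_lt_d9
          linarith
  calc ∑ i ∈ range (d + 1), (s.choose i : ℝ) ≤ y ^ d * (1 + 1 / y) ^ s :=
        h1.trans (mul_le_mul_of_nonneg_left h2 (by positivity))
    _ ≤ y ^ d * 3 ^ d := mul_le_mul_of_nonneg_left h3 (by positivity)
    _ = (3 * y) ^ d := by rw [mul_pow]; ring

/-- The number of traces, from the lemma of Sauer and Shelah. -/
lemma card_traces_le {V : Type*} [DecidableEq V] (𝒜 : Finset (Finset V)) (J : Finset V) (d : ℕ)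
    (hd : ∀ T, 𝒜.Shatters T → #T ≤ d) :
    #(𝒜.image (· ∩ J)) ≤ ∑ i ∈ range (d + 1), (#J).choose i := by
  refine (card_le_card_shatterer _).trans (le_trans (card_le_card ?_) (card_small J d))
  intro s hs
  rw [mem_shatterer] at hs
  rw [mem_filter, mem_powerset]
  constructor
  · obtain ⟨u, hu, hsu⟩ := hs (Subset.refl s)
    rw [mem_image] at hu
    obtain ⟨w, -, rfl⟩ := hu
    have : s ⊆ w ∩ J := by
      rw [← hsu]
      exact inter_subset_right
    exact this.trans inter_subset_right
  · apply hd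
    intro t ht
    obtain ⟨u, hu, hsu⟩ := hs ht
    obtain ⟨u', hu', hsu'⟩ := hs (Subset.refl s)
    rw [mem_image] at hu hu'
    obtain ⟨w, hw, rfl⟩ := hu
    obtain ⟨w', -, rfl⟩ := hu'
    have hsJ : s ⊆ J := by
      intro x hx
      have : x ∈ s ∩ (w' ∩ J) := by
        rw [hsu']
        exact hx
      exact (mem_inter.1 (mem_inter.1 this).2).2
    refine ⟨w, hw, ?_⟩
    rw [← hsu]
    ext x
    simp only [mem_inter]
    exact ⟨fun h => ⟨h.1, h.2, hsJ h.1⟩, fun h => ⟨h.1, h.2.1⟩⟩

/-- A bound for the number of sets which are pairwise far apart. -/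
lemma card_sep_le {V ι : Type*} [Fintype V] [DecidableEq V] (M : ι → Finset V) (R : Finset ι)
    (d κ : ℕ)
    (hd : ∀ S : Finset V, (∀ T ⊆ S, ∃ v ∈ R, ∀ w ∈ S, w ∈ M v ↔ w ∈ T) → #S ≤ d)
    (hsep : ∀ a ∈ R, ∀ b ∈ R, a ≠ b → κ ≤ #(symmDiff (M a) (M b)))
    (hκ4 : 4 * d < κ) (hV : 0 < Fintype.card V) (y : ℝ) (hy : 1 ≤ y)
    (hy4 : 4 * (Fintype.card V : ℝ) / κ ≤ y) :
    (#R : ℝ) ≤ 2 * (3 * y) ^ d := by
  classical
  have hκ : 0 < κ := by omega
  set s : ℕ := 4 * d * Fintype.card V / κ with hsdef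
  have hs : s + 1 ≤ Fintype.card V := by
    have : s < Fintype.card V := by
      rw [hsdef, Nat.div_lt_iff_lt_mul hκ, mul_comm (Fintype.card V) κ]
      exact Nat.mul_lt_mul_of_pos_right hκ4 (by omega)
    omega
  have h : 4 * d * Fintype.card V ≤ (s + 1) * κ := by
    have h1 := Nat.lt_div_mul_add (a := 4 * d * Fintype.card V) hκ
    rw [← hsdef] at h1
    rw [add_mul, one_mul]
    exact h1.le
  have hinj : Set.InjOn M (R : Set ι) := by
    intro a ha b hb hab
    by_contra hne
    have := hsep a ha b hb hne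
    rw [hab, symmDiff_self] at this
    simp only [bot_eq_empty, card_empty] at this
    omega
  have hsh : ∀ T, (R.image M).Shatters T → #T ≤ d := by
    intro S hS
    apply hd
    intro T hT
    obtain ⟨u, hu, hsu⟩ := hS hT
    obtain ⟨v, hvR, rfl⟩ := mem_image.1 hu
    refine ⟨v, hvR, fun w hw => ?_⟩
    rw [← hsu, mem_inter]
    exact ⟨fun h => ⟨hw, h⟩, fun h => h.2⟩
  obtain ⟨J, hJ, hle⟩ := Pool.Agent.H456.Pack.packing (R.image M) d κ s hsh (by
    intro S hS S' hS' hne
    obtain ⟨a, ha, rfl⟩ := mem_image.1 hS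
    obtain ⟨b, hb, rfl⟩ := mem_image.1 hS'
    exact hsep a ha b hb (fun h => hne (by rw [h]))) hκ hs h
  rw [card_image_of_injOn hinj] at hle
  have h1 := card_traces_le (R.image M) J d hsh
  rw [hJ] at h1
  have h2 : (s : ℝ) ≤ d * y := by
    have h4 : (s : ℝ) ≤ 4 * d * (Fintype.card V : ℝ) / κ := by
      rw [hsdef]
      refine Nat.cast_div_le.trans ?_
      push_cast
      exact le_rfl
    have h5 : 4 * d * (Fintype.card V : ℝ) / κ = d * (4 * (Fintype.card V : ℝ) / κ) := by ring
    rw [h5] at h4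
    exact h4.trans (mul_le_mul_of_nonneg_left hy4 (Nat.cast_nonneg _))
  have h3 := sum_choose_le d s y hy h2
  have h4 : (#R : ℝ) ≤ 2 * ∑ i ∈ range (d + 1), (s.choose i : ℝ) := by
    have : #R ≤ 2 * ∑ i ∈ range (d + 1), s.choose i := by omega
    exact_mod_cast this
  linarith

section

variable {V : Type} [DecidableEq V] [Fintype V] {H : Finset (Finset V)} {k : ℕ}

/-- The number of the edges which meet `A` and the sizes of the neighbourhoods. -/
lemma card_meet_le (h3 : ∀ e ∈ H, #e = 3) (hF : Free H k) (hk : k ≤ Fintype.card V)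
    (A : Finset V) : #{e ∈ H | ∃ a ∈ A, a ∈ e} ≤ k * ∑ v ∈ A, #(nbr H v) := by
  have h1 : {e ∈ H | ∃ a ∈ A, a ∈ e} ⊆ A.biUnion fun v => {e ∈ H | v ∈ e} := by
    intro e he
    rw [mem_filter] at he
    obtain ⟨he, a, ha, hae⟩ := he
    rw [mem_biUnion]
    exact ⟨a, ha, mem_filter.2 ⟨he, hae⟩⟩
  refine (card_le_card h1).trans (card_biUnion_le.trans ?_)
  rw [mul_sum]
  apply sum_le_sum
  intro v _
  have h2 : {e ∈ H | v ∈ e} ⊆ (nbr H v).biUnion fun w => {e ∈ H | v ∈ e ∧ w ∈ e} := by
    intro e he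
    rw [mem_filter] at he
    have h3' : ∃ w ∈ e, w ≠ v := by
      by_contra hno
      push Not at hno
      have : e ⊆ {v} := fun w hw => mem_singleton.2 (hno w hw)
      have := card_le_card this
      rw [card_singleton, h3 e he.1] at this
      omega
    obtain ⟨w, hw, hwv⟩ := h3'
    rw [mem_biUnion]
    refine ⟨w, mem_nbr.2 ⟨hwv, e, he.1, he.2, hw⟩, ?_⟩
    rw [mem_filter]
    exact ⟨he.1, he.2, hw⟩
  refine (card_le_card h2).trans ?_
  refine (card_biUnion_le_card_mul _ _ k ?_).trans (by rw [mul_comm])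
  intro w hw
  have := codeg_lt h3 hF hk (mem_nbr.1 hw).1.symm
  omega

/-- The pairs with first entry in `A` on which the shadow of `H` and the relation `R` differ. -/
noncomputable def diffs (H : Finset (Finset V)) (A : Finset V) (R : V → V → Prop) :
    Finset (V × V) :=
  open Classical in
  {p | p.1 ∈ A ∧ ¬ (R p.1 p.2 ↔ (p.1 ≠ p.2 ∧ ∃ e ∈ H, p.1 ∈ e ∧ p.2 ∈ e))}

/-- The set of the vertices related to `v`. -/
noncomputable def nbG (R : V → V → Prop) (v : V) : Finset V :=
  open Classical in {w | R v w}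

omit [DecidableEq V] in
lemma mem_nbG {R : V → V → Prop} {v w : V} : w ∈ nbG R v ↔ R v w := by simp [nbG]

lemma card_diffs (A : Finset V) (R : V → V → Prop) :
    #(diffs H A R) = ∑ v ∈ A, #(symmDiff (nbr H v) (nbG R v)) := by
  classical
  have h0 : ∑ v ∈ A, #(symmDiff (nbr H v) (nbG R v)) =
      ∑ v, if v ∈ A then #(symmDiff (nbr H v) (nbG R v)) else 0 := by
    rw [← sum_filter]
    congr 1
    ext v
    simp
  rw [h0, diffs, card_filter, ← univ_product_univ, sum_product]
  apply sum_congr rfl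
  intro v _
  by_cases hv : v ∈ A
  · rw [if_pos hv, ← card_filter]
    congr 1
    ext w
    simp only [mem_filter, mem_univ, true_and, mem_symmDiff, mem_nbr, mem_nbG]
    constructor
    · rintro ⟨-, hn⟩
      by_cases h : R v w
      · right
        exact ⟨h, fun h' => hn ⟨fun _ => ⟨h'.1.symm, h'.2⟩, fun _ => h⟩⟩
      · left
        by_contra h'
        apply hn
        refine ⟨fun h'' => absurd h'' h, fun h'' => absurd ?_ h'⟩
        exact ⟨⟨h''.1.symm, h''.2⟩, h⟩
    · rintro (⟨⟨hne, h1⟩, h2⟩ | ⟨h1, h2⟩)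
      · exact ⟨hv, fun h => h2 (h.2 ⟨hne.symm, h1⟩)⟩
      · exact ⟨hv, fun h => h2 ⟨(h.1 h1).1.symm, (h.1 h1).2⟩⟩
  · rw [if_neg hv]
    apply sum_eq_zero
    intro w _
    rw [if_neg]
    exact fun h => hv h.1

lemma symmDiff_tri (A B C D : Finset V) :
    #(symmDiff A B) ≤ #(symmDiff A C) + #(symmDiff C D) + #(symmDiff B D) := by
  have : symmDiff A B ⊆ symmDiff A C ∪ symmDiff C D ∪ symmDiff B D := by
    intro x
    simp only [mem_symmDiff, mem_union]
    tauto
  refine (card_le_card this).trans ((card_union_le _ _).trans ?_)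
  exact Nat.add_le_add_right (card_union_le _ _) _

/-- The main estimate. -/
theorem main_bound (d : ℕ) (h3 : ∀ e ∈ H, #e = 3) (hF : Free H k) (hk : k ≤ Fintype.card V)
    (A : Finset V) (R : V → V → Prop)
    (hd : ∀ S : Finset V, (∀ T ⊆ S, ∃ v ∈ A, ∀ w ∈ S, R v w ↔ w ∈ T) → #S ≤ d)
    (n q t : ℝ) (hn : n = Fintype.card V) (hq : q = #{e ∈ H | ∃ a ∈ A, a ∈ e})
    (ht : q = 3 * k * n * t) :
    t ≤ 2 * k ^ 2 + 16 * k * d ∨ t ^ 2 ≤ 8 * k * (#(diffs H A R) : ℝ) ∨
      t ^ (d + 1) ≤ 2 * (48 * k) ^ d * n ^ d := by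
  classical
  have hk3 : 3 < k := by
    have := not_free_of_le hF hk ∅ (by simp)
    omega
  have hkR : (4 : ℝ) ≤ k := by exact_mod_cast hk3
  have hnpos : 0 < n := by
    rw [hn]
    have : 0 < Fintype.card V := by omega
    exact_mod_cast this
  by_contra hcon
  push Not at hcon
  obtain ⟨hc1, hc2, hc3⟩ := hcon
  have hdR : (0 : ℝ) ≤ d := Nat.cast_nonneg _
  have htpos : 0 < t := by
    have : 0 ≤ 2 * (k : ℝ) ^ 2 + 16 * k * d := by positivity
    linarith
  -- sum of the degrees
  set P : ℝ := ∑ v ∈ A, (#(nbr H v) : ℝ) with hP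
  have hsum : q ≤ k * P := by
    have := card_meet_le h3 hF hk A
    rw [hq, hP]
    exact_mod_cast this
  have hPle : 3 * (n * t) ≤ P := by
    have h1 : k * (3 * (n * t)) ≤ k * P := by
      rw [ht] at hsum
      linarith
    exact le_of_mul_le_mul_left h1 (by linarith)
  have hdeg : ∀ v, (#(nbr H v) : ℝ) ≤ n := by
    intro v
    rw [hn]
    exact_mod_cast card_le_univ _
  have hAn : (#A : ℝ) ≤ n := by
    rw [hn]
    exact_mod_cast card_le_univ _
  have htn : t ≤ n := by
    have h1 : P ≤ n * n := by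
      rw [hP]
      refine (sum_le_sum fun v _ => hdeg v).trans ?_
      rw [sum_const, nsmul_eq_mul]
      exact mul_le_mul_of_nonneg_right hAn hnpos.le
    have h2 : n * (3 * t) ≤ n * n := by linarith
    have := le_of_mul_le_mul_left h2 hnpos
    linarith
  -- the vertices of large degree
  set B : Finset V := A.filter fun v => t ≤ (#(nbr H v) : ℝ) with hB
  have hBc : 2 * t ≤ (#B : ℝ) := by
    have h1 : P ≤ n * t + #B * n := by
      rw [hP, ← sum_filter_add_sum_filter_not A (fun v => t ≤ (#(nbr H v) : ℝ))]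
      rw [add_comm]
      apply add_le_add
      · refine (sum_le_card_nsmul _ _ t ?_).trans ?_
        · intro v hv
          rw [mem_filter] at hv
          exact (not_le.1 hv.2).le
        · rw [nsmul_eq_mul]
          apply mul_le_mul_of_nonneg_right _ htpos.le
          refine le_trans ?_ hAn
          exact_mod_cast card_le_card (filter_subset _ _)
      · refine (sum_le_card_nsmul _ _ n ?_).trans ?_
        · intro v _
          exact hdeg v
        · rw [nsmul_eq_mul]
    have h2 : n * (2 * t) ≤ n * #B := by linarith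
    exact le_of_mul_le_mul_left h2 hnpos
  set B' : Finset V := B.filter fun v =>
    (#(symmDiff (nbr H v) (nbG R v)) : ℝ) ≤ t / (8 * (k : ℝ)) with hB'
  have hB'c : t ≤ (#B' : ℝ) := by
    by_contra hlt
    push Not at hlt
    apply absurd hc2
    push Not
    have h0 : #B' + #(B.filter fun v =>
        ¬ (#(symmDiff (nbr H v) (nbG R v)) : ℝ) ≤ t / (8 * (k : ℝ))) = #B :=
      card_filter_add_card_filter_not _
    have h1 : (#B' : ℝ) + (#(B.filter fun v =>
        ¬ (#(symmDiff (nbr H v) (nbG R v)) : ℝ) ≤ t / (8 * (k : ℝ))) : ℝ) = (#B : ℝ) := by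
      rw [← Nat.cast_add, h0]
    set B'' := B.filter fun v => ¬ (#(symmDiff (nbr H v) (nbG R v)) : ℝ) ≤ t / (8 * (k : ℝ))
    have h2 : t ≤ (#B'' : ℝ) := by linarith
    have h4 : (#B'' : ℝ) * (t / (8 * (k : ℝ))) ≤ (#(diffs H A R) : ℝ) := by
      rw [card_diffs]
      push_cast
      calc (#B'' : ℝ) * (t / (8 * (k : ℝ))) = ∑ v ∈ B'', t / (8 * (k : ℝ)) := by
            rw [sum_const, nsmul_eq_mul]
        _ ≤ ∑ v ∈ B'', (#(symmDiff (nbr H v) (nbG R v)) : ℝ) := by
            apply sum_le_sum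
            intro v hv
            rw [mem_filter] at hv
            exact (not_le.1 hv.2).le
        _ ≤ ∑ v ∈ A, (#(symmDiff (nbr H v) (nbG R v)) : ℝ) :=
            sum_le_sum_of_subset_of_nonneg ((filter_subset _ _).trans (filter_subset _ _))
              fun _ _ _ => Nat.cast_nonneg _
    have h5 : t * (t / (8 * (k : ℝ))) ≤ (#(diffs H A R) : ℝ) :=
      (mul_le_mul_of_nonneg_right h2 (by positivity)).trans h4
    have h6 : t ^ 2 = 8 * k * (t * (t / (8 * (k : ℝ)))) := by field_simp
    rw [h6]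
    exact mul_le_mul_of_nonneg_left h5 (by positivity)
  -- separation
  set κ : ℕ := ⌈t / (4 * k)⌉₊ with hκ
  have hκpos : 0 < κ := Nat.ceil_pos.2 (by positivity)
  have hκle : t / (4 * k) ≤ κ := Nat.le_ceil _
  have hsep : ∀ a ∈ B', ∀ b ∈ B', a ≠ b → κ ≤ #(symmDiff (nbG R a) (nbG R b)) := by
    intro a ha b hb hab
    rw [hκ, Nat.ceil_le]
    rw [hB', mem_filter, hB, mem_filter] at ha hb
    have h1 : (#(nbr H a ∪ nbr H b) : ℝ) ≤ k * (#(symmDiff (nbr H a) (nbr H b)) + k) := by
      exact_mod_cast card_union_nbr_le h3 hF hk hab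
    have h2 : (#(nbr H a) : ℝ) ≤ #(nbr H a ∪ nbr H b) := by
      exact_mod_cast card_le_card subset_union_left
    have h4 : (#(symmDiff (nbr H a) (nbr H b)) : ℝ) ≤ #(symmDiff (nbr H a) (nbG R a)) +
        #(symmDiff (nbG R a) (nbG R b)) + #(symmDiff (nbr H b) (nbG R b)) := by
      exact_mod_cast symmDiff_tri (nbr H a) (nbr H b) (nbG R a) (nbG R b)
    have h5 : t ≤ k * (#(symmDiff (nbr H a) (nbr H b)) + k) := by
      linarith [ha.1.2]
    have h6 : t / k ≤ #(symmDiff (nbr H a) (nbr H b)) + k := by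
      rw [div_le_iff₀ (by linarith)]
      linarith
    have h7 : (k : ℝ) ≤ t / (2 * k) := by
      rw [le_div_iff₀ (by linarith)]
      nlinarith
    have e1 : t / (2 * k) = t / k / 2 := by field_simp
    have e2 : t / (4 * k) = t / k / 4 := by field_simp
    have e3 : t / (8 * (k : ℝ)) = t / k / 8 := by field_simp
    rw [e1] at h7
    rw [e2]
    rw [e3] at ha hb
    linarith [ha.2, hb.2]
  have hκ4 : 4 * d < κ := by
    have h1 : (4 * d : ℝ) < κ := by
      refine lt_of_lt_of_le ?_ hκle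
      rw [lt_div_iff₀ (by linarith)]
      nlinarith
    exact_mod_cast h1
  have hle := card_sep_le (nbG R) B' d κ (by
    intro S hS
    apply hd
    intro T hT
    obtain ⟨v, hvB, hv⟩ := hS T hT
    exact ⟨v, filter_subset _ _ (filter_subset _ _ hvB),
      fun w hw => by rw [← hv w hw, mem_nbG]⟩) hsep hκ4 (by omega) (16 * k * (n / t)) (by
    have h5 : 1 ≤ n / t := by
      rw [le_div_iff₀ htpos]
      linarith
    nlinarith) (by
    rw [← hn]
    calc 4 * n / κ ≤ 4 * n / (t / (4 * k)) := by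
          apply div_le_div_of_nonneg_left (by positivity) (by positivity) hκle
      _ = 16 * k * (n / t) := by
          field_simp
          ring)
  have hfin : t ≤ 2 * (3 * (16 * k * (n / t))) ^ d := hB'c.trans hle
  apply absurd hc3
  push Not
  have e0 : (3 * (16 * k * (n / t))) ^ d = (48 * k) ^ d * (n ^ d / t ^ d) := by
    rw [← div_pow, ← mul_pow]
    congr 1
    ring
  rw [e0] at hfin
  have h8 : t ^ (d + 1) = t ^ d * t := pow_succ _ _
  rw [h8]
  calc t ^ d * t ≤ t ^ d * (2 * ((48 * k) ^ d * (n ^ d / t ^ d))) :=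
        mul_le_mul_of_nonneg_left hfin (by positivity)
    _ = 2 * (48 * k) ^ d * n ^ d := by
        field_simp

end

/-- **Triple systems whose shadow is close to a graph of bounded VC-dimension.** -/
theorem main (k d : ℕ) (V : Type) [Fintype V] [DecidableEq V] (H : Finset (Finset V))
    (h3 : ∀ e ∈ H, #e = 3)
    (hF : ∀ K : Finset V, #K = k → #{e ∈ H | e ⊆ K} < k - 3) (A : Finset V) (R : V → V → Prop)
    (hd : ∀ S : Finset V, (∀ T ⊆ S, ∃ v ∈ A, ∀ w ∈ S, R v w ↔ w ∈ T) → #S ≤ d) :
    (#{e ∈ H | ∃ a ∈ A, a ∈ e} : ℝ) ≤ 36 * k ^ 3 * ((Fintype.card V : ℝ) ^ (2 - 1 / ((d : ℝ) + 1)) +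
      d * Fintype.card V + Fintype.card V * Real.sqrt (#(diffs H A R))) := by
  set n : ℝ := (Fintype.card V : ℝ) with hn
  have hn0 : 0 ≤ n := Nat.cast_nonneg _
  have hdR : (0 : ℝ) ≤ d := Nat.cast_nonneg _
  have hkR : (0 : ℝ) ≤ k := Nat.cast_nonneg _
  set D : ℝ := (#(diffs H A R) : ℝ) with hD
  have hD0 : 0 ≤ D := Nat.cast_nonneg _
  have hs0 : 0 ≤ Real.sqrt D := Real.sqrt_nonneg _
  have hexp : (1 : ℝ) ≤ 2 - 1 / ((d : ℝ) + 1) := by
    have : 1 / ((d : ℝ) + 1) ≤ 1 := by
      rw [div_le_one (by linarith)]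
      linarith
    linarith
  have hHA : #{e ∈ H | ∃ a ∈ A, a ∈ e} ≤ #H := card_le_card (filter_subset _ _)
  rcases Nat.eq_zero_or_pos (Fintype.card V) with h0 | h0
  · have hH : #{e ∈ H | ∃ a ∈ A, a ∈ e} = 0 := by
      rw [card_eq_zero]
      by_contra hne
      obtain ⟨e, he⟩ := nonempty_iff_ne_empty.2 hne
      have h1 := h3 e (filter_subset _ _ he)
      have h2 := card_le_univ e
      omega
    rw [hH]
    have : 0 ≤ n ^ (2 - 1 / ((d : ℝ) + 1)) := Real.rpow_nonneg hn0 _
    push_cast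
    positivity
  have hn1 : 1 ≤ n := by
    rw [hn]
    exact_mod_cast h0
  have hnp : n ≤ n ^ (2 - 1 / ((d : ℝ) + 1)) := by
    conv_lhs => rw [← Real.rpow_one n]
    exact Real.rpow_le_rpow_of_exponent_le hn1 hexp
  set N : ℝ := n ^ (2 - 1 / ((d : ℝ) + 1)) with hN
  have hN0 : 0 ≤ N := Real.rpow_nonneg hn0 _
  have hdn : 0 ≤ d * n := by positivity
  have hnD : 0 ≤ n * Real.sqrt D := by positivity
  by_cases hk : k ≤ Fintype.card V
  · have hk3 : 3 < k := by
      have := not_free_of_le hF hk ∅ (by simp)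
      omega
    have hk4 : (4 : ℝ) ≤ k := by exact_mod_cast hk3
    have hk23 : 4 * (k : ℝ) ^ 2 ≤ k ^ 3 := by nlinarith [sq_nonneg (k : ℝ)]
    have hk30 : 0 ≤ (k : ℝ) ^ 3 := by positivity
    have hnpos : 0 < n := by linarith
    obtain ⟨t, ht⟩ : ∃ t : ℝ, (#{e ∈ H | ∃ a ∈ A, a ∈ e} : ℝ) = 3 * k * n * t :=
      ⟨#{e ∈ H | ∃ a ∈ A, a ∈ e} / (3 * k * n), by field_simp⟩
    have ht0 : 0 ≤ t := by
      by_contra hneg
      push Not at hneg
      have h1 : 3 * k * n * t < 0 := mul_neg_of_pos_of_neg (by positivity) hneg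
      have h2 : (0 : ℝ) ≤ #{e ∈ H | ∃ a ∈ A, a ∈ e} := Nat.cast_nonneg _
      linarith
    rcases main_bound d h3 hF hk A R hd n _ t hn rfl ht with h | h | h
    · rw [ht]
      calc 3 * k * n * t = 3 * k * t * n := by ring
        _ ≤ 3 * k * (2 * k ^ 2 + 16 * k * d) * n := by
            apply mul_le_mul_of_nonneg_right _ hn0
            exact mul_le_mul_of_nonneg_left h (by positivity)
        _ = 6 * k ^ 3 * n + 12 * (4 * k ^ 2) * (d * n) := by ring
        _ ≤ 36 * k ^ 3 * N + 36 * k ^ 3 * (d * n) := by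
            apply add_le_add
            · apply mul_le_mul _ hnp hn0 (by positivity)
              linarith
            · apply mul_le_mul_of_nonneg_right _ hdn
              linarith
        _ ≤ _ := by
            have := mul_nonneg hk30 hnD
            linarith
    · have h1 : t ≤ 8 * k * Real.sqrt D := by
        apply le_of_sq_le_sq _ (by positivity)
        rw [mul_pow, Real.sq_sqrt hD0]
        refine h.trans ?_
        apply mul_le_mul_of_nonneg_right _ hD0
        nlinarith
      rw [ht]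
      calc 3 * k * n * t ≤ 3 * k * n * (8 * k * Real.sqrt D) :=
            mul_le_mul_of_nonneg_left h1 (by positivity)
        _ = 6 * (4 * k ^ 2) * (n * Real.sqrt D) := by ring
        _ ≤ 36 * k ^ 3 * (n * Real.sqrt D) := by
            apply mul_le_mul_of_nonneg_right _ hnD
            linarith
        _ ≤ _ := by
            have := mul_nonneg hk30 hdn
            have := mul_nonneg hk30 hN0
            linarith
    · have h1 : t ≤ 48 * k * n ^ ((d : ℝ) / (d + 1)) := by
        have h2 : t ^ (d + 1) ≤ (48 * k * n ^ ((d : ℝ) / (d + 1))) ^ (d + 1) := by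
          refine h.trans ?_
          rw [mul_pow (48 * (k : ℝ)) _ (d + 1), ← Real.rpow_natCast (n ^ ((d : ℝ) / (d + 1))),
            ← Real.rpow_mul hn0]
          have e : (d : ℝ) / (d + 1) * ((d + 1 : ℕ) : ℝ) = d := by
            push_cast
            field_simp
          rw [e, Real.rpow_natCast]
          apply mul_le_mul_of_nonneg_right _ (by positivity)
          rw [pow_succ, mul_comm]
          apply mul_le_mul_of_nonneg_left _ (by positivity)
          linarith
        exact le_of_pow_le_pow_left₀ (by omega) (by positivity) h2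
      have e2 : N = n * n ^ ((d : ℝ) / (d + 1)) := by
        rw [hN]
        conv_rhs => rw [← Real.rpow_one n, ← Real.rpow_mul hn0, ← Real.rpow_add hnpos]
        congr 1
        field_simp
        ring
      rw [ht]
      calc 3 * k * n * t ≤ 3 * k * n * (48 * k * n ^ ((d : ℝ) / (d + 1))) :=
            mul_le_mul_of_nonneg_left h1 (by positivity)
        _ = 36 * (4 * k ^ 2) * N := by
            rw [e2]
            ring
        _ ≤ 36 * k ^ 3 * N := by
            apply mul_le_mul_of_nonneg_right _ hN0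
            linarith
        _ ≤ _ := by
            have := mul_nonneg hk30 hdn
            have := mul_nonneg hk30 hnD
            linarith
  · push Not at hk
    have h1 : #H ≤ Fintype.card V ^ 3 := by
      have h2 : H ⊆ powersetCard 3 univ := by
        intro e he
        rw [mem_powersetCard]
        exact ⟨subset_univ _, h3 e he⟩
      refine (card_le_card h2).trans ?_
      rw [card_powersetCard, card_univ]
      exact Nat.choose_le_pow _ _
    have h2 : (#{e ∈ H | ∃ a ∈ A, a ∈ e} : ℝ) ≤ n ^ 3 := by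
      rw [hn]
      exact_mod_cast hHA.trans h1
    have h4 : n ≤ k := by
      rw [hn]
      exact_mod_cast hk.le
    have hk1 : 1 ≤ (k : ℝ) := hn1.trans h4
    have hk23 : (k : ℝ) ^ 2 ≤ k ^ 3 := pow_le_pow_right₀ hk1 (by norm_num)
    have hk30 : 0 ≤ (k : ℝ) ^ 3 := by positivity
    calc (#{e ∈ H | ∃ a ∈ A, a ∈ e} : ℝ) ≤ n ^ 3 := h2
      _ = n ^ 2 * n := by ring
      _ ≤ k ^ 2 * N := mul_le_mul (pow_le_pow_left₀ hn0 h4 2) hnp hn0 (by positivity)
      _ ≤ 36 * k ^ 3 * N := by
          apply mul_le_mul_of_nonneg_right _ hN0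
          linarith
      _ ≤ _ := by
          have := mul_nonneg hk30 hdn
          have := mul_nonneg hk30 hnD
          linarith

end Pool.Agent.Helper46.BES
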